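import Pool.Agent.H564.SP.Moments

/-! The noise of a random sample is almost surely large infinitely often, with a given sign. -/

set_option autoImplicit false

namespace Pool.Agent.H564.SP

open Finset Filter Topology MeasureTheory ProbabilityTheory
open Pool.Agent.H564.BSD (wt)

variable {Ω : Type*} [mΩ : MeasurableSpace Ω] {μ : Measure Ω} [IsProbabilityMeasure μ]
  {A : ℕ → Set Ω} {δ : ℕ → ℝ}

/-- one sum is large with positive probability -/
theorem one_sum (hA : ∀ p, MeasurableSet (A p)) (hind : iIndepSet A μ)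
    (hδ0 : ∀ p, 0 < δ p) (hδ1 : ∀ p, δ p ≤ 1) (hμ : ∀ p, μ (A p) = ENNReal.ofReal (δ p))
    (v : ℕ → ℝ) (n : ℕ) (hV : 0 < ∑ i ∈ range n, v i ^ 2 * (1 / δ i - 1))
    (h4 : ∑ i ∈ range n, v i ^ 4 / δ i ^ 3 ≤ (∑ i ∈ range n, v i ^ 2 * (1 / δ i - 1)) ^ 2) :
    1 / 28 ≤ μ.real {ω | √(∑ i ∈ range n, v i ^ 2 * (1 / δ i - 1)) / 10 ≤
      ∑ i ∈ range n, (wt A δ ω i - 1) * v i} := by
  set ξ : ℕ → Ω → ℝ := fun n => (A n).indicator fun _ => (1 : ℝ) with hξ
  have hξm : ∀ n, Measurable (ξ n) := fun n => measurable_const.indicator (hA n)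
  have hξi : iIndepFun ξ μ := hind.iIndepFun_indicator
  have hreal : ∀ n, μ.real (A n) = δ n := by
    intro n
    rw [measureReal_def, hμ, ENNReal.toReal_ofReal (hδ0 n).le]
  have hξint : ∀ n, ∫ ω, ξ n ω ∂μ = δ n := by
    intro n
    simp only [hξ]
    rw [integral_indicator_const _ (hA n), hreal, smul_eq_mul, mul_one]
  set g : ℕ → ℝ → ℝ := fun n t => (t / δ n - 1) * v n with hg
  have hgm : ∀ n, Measurable (g n) := by
    intro n
    simp only [hg]
    fun_prop
  set Z : ℕ → Ω → ℝ := fun n ω => g n (ξ n ω) with hZ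
  have hZi : iIndepFun Z μ := hξi.comp g hgm
  have hZm : ∀ n, Measurable (Z n) := fun n => (hgm n).comp (hξm n)
  have hξ01 : ∀ n ω, ξ n ω = 0 ∨ ξ n ω = 1 := by
    intro n ω
    simp only [hξ]
    by_cases h : ω ∈ A n
    · right; rw [Set.indicator_of_mem h]
    · left; rw [Set.indicator_of_notMem h]
  have hξi1 : ∀ n, Integrable (ξ n) μ := by
    intro n
    exact (integrable_const (1 : ℝ)).indicator (hA n)
  have hZb : ∀ n, ∃ C, ∀ ω, |Z n ω| ≤ C := by
    intro n
    refine ⟨|g n 0| + |g n 1|, fun ω => ?_⟩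
    simp only [hZ]
    rcases hξ01 n ω with h | h <;> rw [h]
    · linarith [abs_nonneg (g n 1)]
    · linarith [abs_nonneg (g n 0)]
  have hZ0 : ∀ n, ∫ ω, Z n ω ∂μ = 0 := by
    intro n
    have e : ∀ ω, Z n ω = (v n / δ n) * ξ n ω - v n := by
      intro ω
      simp only [hZ, hg]
      ring
    simp only [e]
    rw [integral_sub ((hξi1 n).const_mul _) (integrable_const _), integral_const_mul, hξint]
    simp only [integral_const, probReal_univ, smul_eq_mul, one_mul]
    have := (hδ0 n).ne'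
    field_simp
    ring
  have hZ2 : ∀ n, ∫ ω, Z n ω ^ 2 ∂μ = v n ^ 2 * (1 / δ n - 1) := by
    intro n
    have e : ∀ ω, Z n ω ^ 2 = v n ^ 2 * ((1 / δ n ^ 2 - 2 / δ n) * ξ n ω + 1) := by
      intro ω
      simp only [hZ, hg]
      rcases hξ01 n ω with h | h <;> rw [h]
      · ring
      · have := (hδ0 n).ne'
        field_simp
        ring
    simp only [e]
    rw [integral_const_mul, integral_add ((hξi1 n).const_mul _) (integrable_const _),
      integral_const_mul, hξint]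
    simp only [integral_const, probReal_univ, smul_eq_mul, one_mul]
    have := (hδ0 n).ne'
    field_simp
    ring
  have hZ4 : ∀ n, ∫ ω, Z n ω ^ 4 ∂μ ≤ v n ^ 4 / δ n ^ 3 := by
    intro n
    have hd := hδ0 n
    have hd1 := hδ1 n
    have e : ∀ ω, Z n ω ^ 4 = v n ^ 4 * (((1 / δ n - 1) ^ 4 - 1) * ξ n ω + 1) := by
      intro ω
      simp only [hZ, hg]
      rcases hξ01 n ω with h | h <;> rw [h] <;> ring
    simp only [e]
    rw [integral_const_mul, integral_add ((hξi1 n).const_mul _) (integrable_const _),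
      integral_const_mul, hξint]
    simp only [integral_const, probReal_univ, smul_eq_mul, one_mul]
    rw [div_eq_mul_inv (v n ^ 4)]
    refine mul_le_mul_of_nonneg_left ?_ (by positivity)
    have e2 : ((1 / δ n - 1) ^ 4 - 1) * δ n + 1 =
        ((1 - δ n) * ((1 - δ n) ^ 3 + δ n ^ 3)) * (δ n ^ 3)⁻¹ := by
      field_simp
      ring
    rw [e2]
    have h5 : (1 - δ n) * ((1 - δ n) ^ 3 + δ n ^ 3) ≤ 1 := by
      have h6 : (1 - δ n) ^ 3 + δ n ^ 3 ≤ 1 := by nlinarith
      have h7 : 0 ≤ (1 - δ n) ^ 3 + δ n ^ 3 := by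
        have : 0 ≤ 1 - δ n := by linarith
        positivity
      nlinarith
    calc ((1 - δ n) * ((1 - δ n) ^ 3 + δ n ^ 3)) * (δ n ^ 3)⁻¹ ≤ 1 * (δ n ^ 3)⁻¹ :=
          mul_le_mul_of_nonneg_right h5 (by positivity)
      _ = _ := one_mul _
  obtain ⟨m1, m2, m4⟩ := moments hZm hZb hZi hZ0 n
  simp only [hZ2] at m2 m4
  set V : ℝ := ∑ i ∈ range n, v i ^ 2 * (1 / δ i - 1) with hVdef
  have hS : ∀ ω, ∑ i ∈ range n, (wt A δ ω i - 1) * v i = ∑ i ∈ range n, Z i ω := by
    intro ω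
    refine sum_congr rfl fun i _ => ?_
    simp only [hZ, hg, hξ, wt]
    by_cases h : ω ∈ A i
    · rw [Set.indicator_of_mem h, if_pos h]
    · rw [Set.indicator_of_notMem h, if_neg h, zero_div]
  simp only [hS]
  refine pz (Finset.measurable_sum _ fun i _ => hZm i) ?_ hV m1 m2 ?_
  · choose C hC using hZb
    exact ⟨∑ i ∈ range n, C i, fun ω => (abs_sum_le_sum_abs _ _).trans
      (sum_le_sum fun i _ => hC i ω)⟩
  · refine m4.trans ?_
    have h5 : ∑ i ∈ range n, ∫ ω, Z i ω ^ 4 ∂μ ≤ V ^ 2 :=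
      (sum_le_sum fun i _ => hZ4 i).trans h4
    linarith

/-- the tail event -/
theorem tail_event (hA : ∀ p, MeasurableSet (A p)) (hind : iIndepSet A μ) {c : ℕ → ℕ → ℝ}
    {m : ℕ → ℕ} {C : ℕ → ℝ} (hc : ∀ j i, |c j i| ≤ C i) {b : ℕ → ℝ} (hb : Tendsto b atTop atTop)
    (κ : ℝ) :
    μ {ω | ∀ q : ℕ, ∃ᶠ j in atTop, (κ - 1 / ((q : ℝ) + 1)) * b j ≤
      ∑ i ∈ range (m j), (wt A δ ω i - 1) * c j i} = 0 ∨
    μ {ω | ∀ q : ℕ, ∃ᶠ j in atTop, (κ - 1 / ((q : ℝ) + 1)) * b j ≤
      ∑ i ∈ range (m j), (wt A δ ω i - 1) * c j i} = 1 := by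
  set s : ℕ → MeasurableSpace Ω := fun i => MeasurableSpace.generateFrom {A i} with hs
  have hle : ∀ n, s n ≤ mΩ := fun n =>
    MeasurableSpace.generateFrom_le fun t ht => by
      rw [Set.mem_singleton_iff] at ht
      rw [ht]
      exact hA n
  have hi : iIndep s μ := (iIndepSet_iff_iIndep _ _).1 hind
  refine measure_zero_or_one_of_measurableSet_limsup_atTop hle hi ?_
  rw [limsup_eq_iInf_iSup_of_nat, MeasurableSpace.measurableSet_iInf]
  intro n
  -- the tail form of the event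
  have key : {ω | ∀ q : ℕ, ∃ᶠ j in atTop, (κ - 1 / ((q : ℝ) + 1)) * b j ≤
      ∑ i ∈ range (m j), (wt A δ ω i - 1) * c j i} =
      ⋂ q : ℕ, ⋂ N : ℕ, ⋃ j : ℕ, ⋃ _ : N ≤ j, {ω | (κ - 1 / ((q : ℝ) + 1)) * b j ≤
        ∑ i ∈ (range (m j)).filter (fun i => n ≤ i), (wt A δ ω i - 1) * c j i} := by
    ext ω
    simp only [Set.mem_iInter, Set.mem_iUnion, Set.mem_ofPred_eq, exists_prop, frequently_atTop]
    set B : ℝ := ∑ i ∈ range n, |wt A δ ω i - 1| * C i with hB
    have hdiff : ∀ j, |∑ i ∈ range (m j), (wt A δ ω i - 1) * c j i -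
        ∑ i ∈ (range (m j)).filter (fun i => n ≤ i), (wt A δ ω i - 1) * c j i| ≤ B := by
      intro j
      rw [← sum_filter_add_sum_filter_not (range (m j)) (fun i => n ≤ i), add_sub_cancel_left]
      refine (abs_sum_le_sum_abs _ _).trans ?_
      have h1 : ∑ i ∈ (range (m j)).filter (fun i => ¬ n ≤ i), |(wt A δ ω i - 1) * c j i| ≤
          ∑ i ∈ (range (m j)).filter (fun i => ¬ n ≤ i), |wt A δ ω i - 1| * C i := by
        refine sum_le_sum fun i _ => ?_
        rw [abs_mul]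
        exact mul_le_mul_of_nonneg_left (hc j i) (abs_nonneg _)
      refine h1.trans (sum_le_sum_of_subset_of_nonneg ?_ ?_)
      · intro i hi
        rw [mem_filter] at hi
        rw [mem_range]
        omega
      · intro i _ _
        exact mul_nonneg (abs_nonneg _) ((abs_nonneg _).trans (hc 0 i))
    have hgo : ∀ F G : ℕ → ℝ, (∀ j, |F j - G j| ≤ B) →
        (∀ q N : ℕ, ∃ j, N ≤ j ∧ (κ - 1 / ((q : ℝ) + 1)) * b j ≤ F j) →
        ∀ q N : ℕ, ∃ j, N ≤ j ∧ (κ - 1 / ((q : ℝ) + 1)) * b j ≤ G j := by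
      intro F G hFG h q N
      obtain ⟨N', hN'⟩ := eventually_atTop.1 (hb.eventually_ge_atTop (2 * ((q : ℝ) + 1) * B))
      obtain ⟨j, hj, h2⟩ := h (2 * q + 1) (max N N')
      refine ⟨j, (le_max_left _ _).trans hj, ?_⟩
      have h3 := hN' j ((le_max_right _ _).trans hj)
      have h4 := abs_le.1 (hFG j)
      have hq : (0 : ℝ) < (q : ℝ) + 1 := by positivity
      have e : (((2 * q + 1 : ℕ) : ℝ) + 1) = 2 * ((q : ℝ) + 1) := by push_cast; ring
      rw [e] at h2
      have h5 : B ≤ 1 / (2 * ((q : ℝ) + 1)) * b j := by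
        rw [div_mul_eq_mul_div, one_mul, le_div_iff₀ (by positivity)]
        linarith
      have e2 : (κ - 1 / ((q : ℝ) + 1)) * b j =
          (κ - 1 / (2 * ((q : ℝ) + 1))) * b j - 1 / (2 * ((q : ℝ) + 1)) * b j := by
        field_simp
        ring
      rw [e2]
      linarith [h4.2]
    constructor
    · exact fun h q N => hgo _ _ hdiff h q N
    · exact fun h q N => hgo _ _ (fun j => by rw [abs_sub_comm]; exact hdiff j) h q N
  rw [key]
  refine MeasurableSet.iInter fun q => MeasurableSet.iInter fun N => MeasurableSet.iUnion fun j =>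
    MeasurableSet.iUnion fun _ => ?_
  have hmeas : Measurable[⨆ i ≥ n, s i] fun ω =>
      ∑ i ∈ (range (m j)).filter (fun i => n ≤ i), (wt A δ ω i - 1) * c j i := by
    refine Finset.measurable_sum _ fun i hi => ?_
    rw [mem_filter] at hi
    have h1 : MeasurableSet[⨆ i ≥ n, s i] (A i) := by
      have h2 : s i ≤ ⨆ i ≥ n, s i := le_iSup₂_of_le i hi.2 le_rfl
      exact h2 _ (MeasurableSpace.measurableSet_generateFrom rfl)
    have h3 : Measurable[⨆ i ≥ n, s i] fun ω => wt A δ ω i := by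
      unfold wt
      exact Measurable.ite h1 measurable_const measurable_const
    exact (h3.sub measurable_const).mul measurable_const
  exact measurableSet_Ici.preimage hmeas

/-- **The noise is almost surely large infinitely often, with a given sign.** -/
theorem noise_lower (hA : ∀ p, MeasurableSet (A p)) (hind : iIndepSet A μ)
    (hδ0 : ∀ p, 0 < δ p) (hδ1 : ∀ p, δ p ≤ 1) (hμ : ∀ p, μ (A p) = ENNReal.ofReal (δ p))
    {c : ℕ → ℕ → ℝ} {m : ℕ → ℕ} {C : ℕ → ℝ} (hc : ∀ j i, |c j i| ≤ C i) {b : ℕ → ℝ}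
    (hb : Tendsto b atTop atTop) {κ : ℝ} (hκ : 0 < κ)
    (hV : ∀ᶠ j in atTop, 100 * κ ^ 2 * b j ^ 2 ≤ ∑ i ∈ range (m j), c j i ^ 2 * (1 / δ i - 1))
    (h4 : ∀ᶠ j in atTop, ∑ i ∈ range (m j), c j i ^ 4 / δ i ^ 3 ≤
      (∑ i ∈ range (m j), c j i ^ 2 * (1 / δ i - 1)) ^ 2) :
    ∀ᵐ ω ∂μ, ∀ κ' : ℝ, κ' < κ → ∃ᶠ j in atTop, κ' * b j ≤
      ∑ i ∈ range (m j), (wt A δ ω i - 1) * c j i := by
  set T : Set Ω := {ω | ∀ q : ℕ, ∃ᶠ j in atTop, (κ - 1 / ((q : ℝ) + 1)) * b j ≤
      ∑ i ∈ range (m j), (wt A δ ω i - 1) * c j i} with hT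
  obtain ⟨N₀, hN₀⟩ := eventually_atTop.1 ((hV.and h4).and (hb.eventually_gt_atTop 0))
  set E : ℕ → Set Ω := fun j => {ω | κ * b j ≤ ∑ i ∈ range (m j), (wt A δ ω i - 1) * c j i} with hE
  have hwm : ∀ i, Measurable fun ω => wt A δ ω i := by
    intro i
    unfold wt
    exact Measurable.ite (hA i) measurable_const measurable_const
  have hEm : ∀ j, MeasurableSet (E j) := fun j =>
    measurableSet_le measurable_const
      (Finset.measurable_sum _ fun i _ => ((hwm i).sub measurable_const).mul measurable_const)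
  have hEp : ∀ j, N₀ ≤ j → ENNReal.ofReal (1 / 28) ≤ μ (E j) := by
    intro j hj
    obtain ⟨⟨h1, h2⟩, h3⟩ := hN₀ j hj
    have hVp : 0 < ∑ i ∈ range (m j), c j i ^ 2 * (1 / δ i - 1) := by
      refine lt_of_lt_of_le ?_ h1
      positivity
    have h5 := one_sum hA hind hδ0 hδ1 hμ (c j) (m j) hVp h2
    have h6 : {ω | √(∑ i ∈ range (m j), c j i ^ 2 * (1 / δ i - 1)) / 10 ≤
      ∑ i ∈ range (m j), (wt A δ ω i - 1) * c j i} ⊆ E j := by
      intro ω hω
      have h7 : κ * b j ≤ √(∑ i ∈ range (m j), c j i ^ 2 * (1 / δ i - 1)) / 10 := by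
        rw [le_div_iff₀ (by norm_num)]
        refine Real.le_sqrt_of_sq_le ?_
        refine le_trans (le_of_eq ?_) h1
        ring
      exact h7.trans hω
    have h8 : 1 / 28 ≤ μ.real (E j) := h5.trans (measureReal_mono h6)
    rw [measureReal_def] at h8
    exact (ENNReal.ofReal_le_iff_le_toReal (measure_ne_top _ _)).2 h8
  -- reverse Fatou
  have hU : ENNReal.ofReal (1 / 28) ≤ μ (⋂ N : ℕ, ⋃ j : ℕ, ⋃ _ : N ≤ j, E j) := by
    have h1 := tendsto_measure_iInter_atTop (μ := μ) (s := fun N : ℕ => ⋃ j : ℕ, ⋃ _ : N ≤ j, E j)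
      (fun N => (MeasurableSet.iUnion fun j => MeasurableSet.iUnion fun _ => hEm j).nullMeasurableSet)
      (fun N N' h => by
        refine Set.iUnion_mono fun j => ?_
        refine Set.iUnion_mono' fun hj => ⟨h.trans hj, le_rfl⟩)
      ⟨0, measure_ne_top _ _⟩
    refine ge_of_tendsto' h1 fun N => ?_
    refine (hEp (max N N₀) (le_max_right _ _)).trans (measure_mono ?_)
    intro ω hω
    simp only [Set.mem_iUnion]
    exact ⟨max N N₀, le_max_left _ _, hω⟩
  have hsub : (⋂ N : ℕ, ⋃ j : ℕ, ⋃ _ : N ≤ j, E j) ⊆ T := by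
    intro ω hω
    simp only [Set.mem_iInter, Set.mem_iUnion] at hω
    intro q
    rw [frequently_atTop]
    intro N
    obtain ⟨j, hj, h1⟩ := hω (max N N₀)
    refine ⟨j, (le_max_left _ _).trans hj, le_trans ?_ h1⟩
    have h3 := (hN₀ j ((le_max_right _ _).trans hj)).2
    have hq : (0 : ℝ) < 1 / ((q : ℝ) + 1) := by positivity
    nlinarith
  have hT1 : μ T = 1 := by
    rcases tail_event (δ := δ) (m := m) hA hind hc hb κ with h | h
    · exfalso
      have h1 := hU.trans (measure_mono hsub)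
      rw [hT, h] at h1
      have h2 : (0 : ENNReal) < ENNReal.ofReal (1 / 28) := ENNReal.ofReal_pos.2 (by norm_num)
      exact absurd (lt_of_lt_of_le h2 h1) (lt_irrefl _)
    · exact h
  have hTae : ∀ᵐ ω ∂μ, ω ∈ T := by
    have hTm : MeasurableSet T := by
      have e : T = ⋂ q : ℕ, ⋂ N : ℕ, ⋃ j : ℕ, ⋃ _ : N ≤ j,
          {ω | (κ - 1 / ((q : ℝ) + 1)) * b j ≤ ∑ i ∈ range (m j), (wt A δ ω i - 1) * c j i} := by
        ext ω
        simp only [hT, Set.mem_iInter, Set.mem_iUnion, Set.mem_ofPred_eq, exists_prop,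
          frequently_atTop]
      rw [e]
      refine MeasurableSet.iInter fun q => MeasurableSet.iInter fun N => MeasurableSet.iUnion fun j =>
        MeasurableSet.iUnion fun _ => ?_
      exact measurableSet_le measurable_const
        (Finset.measurable_sum _ fun i _ => ((hwm i).sub measurable_const).mul measurable_const)
    exact (prob_compl_eq_zero_iff hTm).2 hT1
  filter_upwards [hTae] with ω hω κ' hκ'
  obtain ⟨q, hq⟩ := exists_nat_one_div_lt (show 0 < κ - κ' by linarith)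
  refine ((hω q).and_eventually (hb.eventually_gt_atTop 0)).mono fun j hj => ?_
  refine le_trans ?_ hj.1
  have : κ' ≤ κ - 1 / ((q : ℝ) + 1) := by linarith
  exact mul_le_mul_of_nonneg_right this hj.2.le

end Pool.Agent.H564.SP
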