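import Pool.Agent.H564.SP.Main

/-! Weights of bounded variation. -/

set_option autoImplicit false

namespace Pool.Agent.H564.SP

open MeasureTheory Filter Topology Set Classical
open Pool.Agent.W263.BSD (GoodPrime pointCount IsLSeries)
open Pool.Agent.H564.BSD
open Pool.Agent.Results.MP_8b7eba_nt.OneSidedRieszMeans (riesz)
open Pool.Agent.Results.MP_553913_nt.ExactExponents (weighted IsNewformOf Vanishes NoZeros hecke)

/-- `S_K(w; X) = ∑_{p ≤ X, p ∤ 2Δ} w(p) K (log p / log X) log (#E(𝔽_p) / p)`. -/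
noncomputable def sampled (w : ℕ → ℝ) (a b : ℤ) (K : ℝ → ℝ) (X : ℝ) : ℝ :=
  ∑ p ∈ (Finset.range (⌊X⌋₊ + 1)).filter (GoodPrime a b),
    w p * (K (Real.log p / Real.log X) * Real.log (((pointCount a b p : ℝ) + 1) / p))

theorem sampled_eq (w : ℕ → ℝ) (a b : ℤ) (K : ℝ → ℝ) (X : ℝ) : sampled w a b K X =
    ∑ i ∈ Finset.range (⌊X⌋₊ + 1), K (Real.log i / Real.log X) * (w i * yy a b i) := by
  unfold sampled
  rw [Finset.sum_filter]
  refine Finset.sum_congr rfl fun i _ => ?_
  unfold yy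
  split_ifs
  · ring
  · ring

theorem weighted_eq (a b : ℤ) (K : ℝ → ℝ) (X : ℝ) : weighted a b K X =
    ∑ i ∈ Finset.range (⌊X⌋₊ + 1), K (Real.log i / Real.log X) * yy a b i := by
  unfold weighted
  rw [Finset.sum_filter]
  refine Finset.sum_congr rfl fun i _ => ?_
  unfold yy
  split_ifs
  · ring
  · ring

/-- Abel's inequality for weights of bounded variation -/
theorem abel_bv {K : ℝ → ℝ} (hK : BoundedVariationOn K (Icc 0 1)) :
    ∃ B : ℝ, 0 ≤ B ∧ ∀ X : ℝ, 1 < X → ∀ n : ℕ, n ≤ ⌊X⌋₊ + 1 → ∀ (v : ℕ → ℝ) (M : ℝ),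
      (∀ k, k ≤ n → |∑ i ∈ Finset.range k, v i| ≤ M) →
      |∑ i ∈ Finset.range n, K (Real.log i / Real.log X) * v i| ≤ B * M := by
  set V : ℝ := (eVariationOn K (Icc 0 1)).toReal with hV
  have hV0 : 0 ≤ V := ENNReal.toReal_nonneg
  have hbd : ∀ u ∈ Icc (0 : ℝ) 1, |K u| ≤ |K 0| + V := by
    intro u hu
    have h1 := hK.dist_le hu (show (0 : ℝ) ∈ Icc (0 : ℝ) 1 by simp)
    rw [Real.dist_eq] at h1
    have h2 : |K u| ≤ |K u - K 0| + |K 0| := by
      have := abs_add_le (K u - K 0) (K 0)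
      rwa [sub_add_cancel] at this
    linarith
  refine ⟨|K 0| + V + V, by positivity, fun X hX n hn v M hM => ?_⟩
  have hM0 : 0 ≤ M := (abs_nonneg _).trans (hM 0 (Nat.zero_le _))
  have hlX : 0 < Real.log X := Real.log_pos hX
  set u : ℕ → ℝ := fun i => Real.log i / Real.log X with hu
  have hmem : ∀ i, i < n → u i ∈ Icc (0 : ℝ) 1 := by
    intro i hi
    constructor
    · exact div_nonneg (Real.log_natCast_nonneg i) hlX.le
    · simp only [hu]
      rw [div_le_one hlX]
      rcases Nat.eq_zero_or_pos i with rfl | h0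
      · simp only [Nat.cast_zero, Real.log_zero]; exact hlX.le
      · refine Real.log_le_log (by exact_mod_cast h0) ?_
        exact (Nat.cast_le.2 (show i ≤ ⌊X⌋₊ by omega)).trans (Nat.floor_le (by linarith))
  have hmono : Monotone u := by
    refine monotone_nat_of_le_succ fun i => ?_
    simp only [hu]
    refine div_le_div_of_nonneg_right ?_ hlX.le
    rcases Nat.eq_zero_or_pos i with rfl | h0
    · simp
    · exact Real.log_le_log (by exact_mod_cast h0) (by push_cast; linarith)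
  rcases Nat.eq_zero_or_pos n with rfl | hn0
  · simp only [Finset.range_zero, Finset.sum_empty, abs_zero]
    positivity
  obtain ⟨m, rfl⟩ : ∃ m, n = m + 1 := ⟨n - 1, by omega⟩
  have h := Finset.sum_range_by_parts (fun i => K (u i)) v (m + 1)
  simp only [smul_eq_mul, Nat.add_sub_cancel] at h
  have h' : ∑ i ∈ Finset.range (m + 1), K (Real.log i / Real.log X) * v i =
      ∑ i ∈ Finset.range (m + 1), K (u i) * v i := rfl
  rw [h', h]
  have hvar : ∑ i ∈ Finset.range m, |K (u (i + 1)) - K (u i)| ≤ V := by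
    have h1 := eVariationOn.sum_le_of_monotoneOn_Iic (f := K) (s := Icc (0 : ℝ) 1) (n := m) (u := u)
      (hmono.monotoneOn _) (fun i hi => hmem i (Nat.lt_succ_of_le hi))
    have h2 := ENNReal.toReal_mono hK h1
    rw [ENNReal.toReal_sum (fun i _ => edist_ne_top _ _)] at h2
    refine le_trans (le_of_eq ?_) h2
    refine Finset.sum_congr rfl fun i _ => ?_
    rw [edist_dist, ENNReal.toReal_ofReal dist_nonneg, Real.dist_eq]
  have h3 : |∑ i ∈ Finset.range m, (K (u (i + 1)) - K (u i)) * ∑ j ∈ Finset.range (i + 1), v j| ≤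
      V * M := by
    refine (Finset.abs_sum_le_sum_abs _ _).trans ?_
    calc ∑ i ∈ Finset.range m, |(K (u (i + 1)) - K (u i)) * ∑ j ∈ Finset.range (i + 1), v j|
        ≤ ∑ i ∈ Finset.range m, |K (u (i + 1)) - K (u i)| * M := by
          refine Finset.sum_le_sum fun i hi => ?_
          rw [Finset.mem_range] at hi
          rw [abs_mul]
          exact mul_le_mul_of_nonneg_left (hM (i + 1) (by omega)) (abs_nonneg _)
      _ = (∑ i ∈ Finset.range m, |K (u (i + 1)) - K (u i)|) * M := by rw [Finset.sum_mul]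
      _ ≤ V * M := mul_le_mul_of_nonneg_right hvar hM0
  have h4 : |K (u m) * ∑ j ∈ Finset.range (m + 1), v j| ≤ (|K 0| + V) * M := by
    rw [abs_mul]
    exact mul_le_mul (hbd _ (hmem m (Nat.lt_succ_self m))) (hM (m + 1) le_rfl) (abs_nonneg _)
      (by positivity)
  refine (abs_sub _ _).trans ?_
  linarith

/-- the noise of the weighted sum -/
theorem noise_bv {w : ℕ → ℝ} {a b : ℤ} {η : ℝ}
    (h : ∀ ε : ℝ, 0 < ε → ∃ C : ℝ, ∀ n : ℕ,
      |∑ i ∈ Finset.range n, (w i - 1) * yy a b i| ≤ C * ((n : ℝ) + 1) ^ (η + ε))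
    (hη : 0 ≤ η) {K : ℝ → ℝ} (hK : BoundedVariationOn K (Icc 0 1)) {β : ℝ} (hβ : 0 < β)
    (hβ1 : β ≤ 1) (hKβ : ∀ u ∈ Ioc β 1, K u = 0) {ε : ℝ} (hε : 0 < ε) :
    ∃ C : ℝ, 0 ≤ C ∧ ∀ X : ℝ, 1 < X →
      |sampled w a b K X - weighted a b K X| ≤ C * X ^ (β * (η + ε)) := by
  obtain ⟨B, hB, hBV⟩ := abel_bv hK
  obtain ⟨C, hC⟩ := h ε hε
  refine ⟨B * (|C| * 3 ^ (η + ε)), by positivity, fun X hX => ?_⟩
  have hX0 : 0 < X := by linarith
  have hlX : 0 < Real.log X := Real.log_pos hX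
  have hXβ1 : 1 ≤ X ^ β := Real.one_le_rpow hX.le hβ.le
  have hXβ : X ^ β ≤ X := by
    calc X ^ β ≤ X ^ (1 : ℝ) := Real.rpow_le_rpow_of_exponent_le hX.le hβ1
      _ = X := Real.rpow_one X
  have hfl : ⌊X ^ β⌋₊ + 1 ≤ ⌊X⌋₊ + 1 := by
    have := Nat.floor_le_floor hXβ
    omega
  have h1 : sampled w a b K X - weighted a b K X = ∑ i ∈ Finset.range (⌊X ^ β⌋₊ + 1),
      K (Real.log i / Real.log X) * ((w i - 1) * yy a b i) := by
    rw [sampled_eq, weighted_eq, ← Finset.sum_sub_distrib]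
    rw [← Finset.sum_sdiff (Finset.range_subset_range.2 hfl)]
    have h2 : ∑ i ∈ Finset.range (⌊X⌋₊ + 1) \ Finset.range (⌊X ^ β⌋₊ + 1),
        (K (Real.log i / Real.log X) * (w i * yy a b i) - K (Real.log i / Real.log X) * yy a b i) =
        0 := by
      refine Finset.sum_eq_zero fun i hi => ?_
      rw [Finset.mem_sdiff, Finset.mem_range, Finset.mem_range] at hi
      have hi1 : X ^ β < i := by
        rw [← Nat.floor_lt (by positivity)]
        omega
      have hi0 : (0 : ℝ) < i := by linarith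
      have hiX : (i : ℝ) ≤ X :=
        (Nat.cast_le.2 (show i ≤ ⌊X⌋₊ by omega)).trans (Nat.floor_le hX0.le)
      have h3 : K (Real.log i / Real.log X) = 0 := by
        refine hKβ _ ⟨?_, ?_⟩
        · rw [lt_div_iff₀ hlX, ← Real.log_rpow hX0]
          exact Real.log_lt_log (by positivity) hi1
        · rw [div_le_one hlX]
          exact Real.log_le_log hi0 hiX
      rw [h3]
      ring
    rw [h2, zero_add]
    exact Finset.sum_congr rfl fun i _ => by ring
  rw [h1]
  refine (hBV X hX _ hfl _ (|C| * (3 * X ^ β) ^ (η + ε)) fun k hk => ?_).trans ?_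
  · refine (hC k).trans ?_
    have h4 : ((k : ℝ) + 1) ≤ 3 * X ^ β := by
      have h5 : (k : ℝ) ≤ (⌊X ^ β⌋₊ : ℝ) + 1 := by exact_mod_cast hk
      have h6 := Nat.floor_le (show 0 ≤ X ^ β by positivity)
      linarith
    have h5 : ((k : ℝ) + 1) ^ (η + ε) ≤ (3 * X ^ β) ^ (η + ε) :=
      Real.rpow_le_rpow (by positivity) h4 (by linarith)
    exact mul_le_mul (le_abs_self C) h5 (by positivity) (abs_nonneg _)
  · rw [Real.mul_rpow (by norm_num) (by positivity), ← Real.rpow_mul hX0.le]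
    exact le_of_eq (by ring)

/-- the weight of the Riesz mean has bounded variation -/
theorem riesz_bv (k : ℕ) : BoundedVariationOn (fun u : ℝ => (1 - u) ^ k) (Icc 0 1) := by
  have h1 : BoundedVariationOn (fun u : ℝ => -(1 - u) ^ k) (Icc 0 1) := by
    refine MonotoneOn.boundedVariationOn (C := 1) ?_ ?_
    · intro u hu v hv huv
      simp only [neg_le_neg_iff]
      exact pow_le_pow_left₀ (by linarith [hv.2]) (by linarith) k
    · intro u hu
      rw [abs_neg, abs_pow, abs_of_nonneg (by linarith [hu.2])]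
      exact pow_le_one₀ (by linarith [hu.2]) (by linarith [hu.1])
  have h2 : eVariationOn (fun u : ℝ => (1 - u) ^ k) (Icc 0 1) =
      eVariationOn (fun u : ℝ => -(1 - u) ^ k) (Icc 0 1) := by
    unfold eVariationOn
    congr 1
    funext p
    refine Finset.sum_congr rfl fun i _ => ?_
    rw [edist_dist, edist_dist, Real.dist_eq, Real.dist_eq]
    congr 1
    rw [← abs_neg]
    congr 1
    ring
  unfold BoundedVariationOn
  rw [h2]
  exact h1

theorem riesz_not_vanishes (k : ℕ) : ∀ α : ℝ, α < 1 → ¬ Vanishes (fun u : ℝ => (1 - u) ^ k) α 1 := by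
  intro α hα h
  unfold Vanishes at h
  rw [ae_iff] at h
  have h1 : Ioo α 1 ⊆ {u : ℝ | ¬ (u ∈ Ioc α 1 → (fun u : ℝ => (1 - u) ^ k) u = 0)} := by
    intro u hu
    rw [Set.mem_ofPred_eq, Classical.not_imp]
    refine ⟨⟨hu.1, hu.2.le⟩, ?_⟩
    exact pow_ne_zero k (by linarith [hu.2])
  have h2 := measure_mono_null h1 h
  rw [Real.volume_Ioo] at h2
  rw [ENNReal.ofReal_eq_zero] at h2
  linarith

theorem sampled_riesz (w : ℕ → ℝ) (a b : ℤ) (k : ℕ) (x : ℝ) :
    sampled w a b (fun u => (1 - u) ^ k) x = wriesz w a b k x := by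
  unfold sampled wriesz
  refine Finset.sum_congr rfl fun p _ => ?_
  rw [Real.rpow_natCast]

theorem weighted_riesz (a b : ℤ) (k : ℕ) (x : ℝ) :
    weighted a b (fun u => (1 - u) ^ k) x = riesz a b k x := by
  unfold weighted riesz
  refine Finset.sum_congr rfl fun p _ => ?_
  rw [Real.rpow_natCast]

end Pool.Agent.H564.SP
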