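import Pool.Agent.H564.SP.BV

/-! The exact exponents for a sample: deterministic part. -/

set_option autoImplicit false

namespace Pool.Agent.H564.SP

open MeasureTheory Filter Topology Set Classical
open CongruenceSubgroup UpperHalfPlane
open scoped MatrixGroups
open Pool.Agent.W263.BSD (GoodPrime pointCount IsLSeries)
open Pool.Agent.H564.BSD
open Pool.Agent.Results.MP_8b7eba_nt.OneSidedRieszMeans (riesz)
open Pool.Agent.Results.MP_553913_nt.ExactExponents (weighted IsNewformOf Vanishes NoZeros hecke)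

variable {w : ℕ → ℝ} {a b : ℤ} {η : ℝ} {F : ℂ → ℂ}

/-- one-sided bounds of the full Riesz mean -/
theorem nozeros_of_le (hΔ : 4 * a ^ 3 + 27 * b ^ 2 ≠ 0) (hF : IsLSeries a b F) (k : ℕ) {θ : ℝ}
    (h : ∀ ε : ℝ, 0 < ε → ∀ᶠ x : ℝ in atTop, riesz a b k x ≤ x ^ (θ + ε)) (hθ : 0 ≤ θ) :
    NoZeros F θ := by
  obtain ⟨m, hm, h1, h2, -⟩ :=
    Pool.Agent.Results.MP_8b7eba_nt.OneSidedRieszMeans.result a b hΔ F hF
  intro s hs h0
  have hg : 0 < (s.re - 1 - θ) / 2 := by linarith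
  have h3 := h2 k s (Nat.cast_nonneg k) (by linarith) h0 (θ + (s.re - 1 - θ) / 2) 1 (by linarith)
  obtain ⟨x, hx1, hx2⟩ := (h3.and_eventually (h _ hg)).exists
  rw [one_mul] at hx1
  linarith

theorem rw_tfae (hΔ : 4 * a ^ 3 + 27 * b ^ 2 ≠ 0) (hF : IsLSeries a b F)
    {N : ℕ} [NeZero N] {f : CuspForm (Gamma0 N : Subgroup (GL (Fin 2) ℝ)) 2}
    (hf : IsNewformOf a b N f) (hη : 0 ≤ η)
    (hup : ∀ ε : ℝ, 0 < ε → ∃ C : ℝ, ∀ n : ℕ,
      |∑ i ∈ Finset.range n, (w i - 1) * yy a b i| ≤ C * ((n : ℝ) + 1) ^ (η + ε))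
    (hlow : 0 < η → ∀ k : ℕ, ∀ ε : ℝ, 0 < ε → ∃ᶠ x : ℝ in atTop, x ^ (η - ε) ≤ wriesz w a b k x)
    (k : ℕ) {θ : ℝ} (hθ : 0 ≤ θ) :
    List.TFAE [
      NoZeros F θ ∧ η ≤ θ,
      ∀ ε : ℝ, 0 < ε → ∀ᶠ x : ℝ in atTop, sampled w a b (fun u => (1 - u) ^ k) x ≤ x ^ (θ + ε),
      ∀ ε : ℝ, 0 < ε → ∀ᶠ x : ℝ in atTop, |sampled w a b (fun u => (1 - u) ^ k) x| ≤ x ^ (θ + ε)] := by
  simp only [sampled_riesz]
  tfae_have 1 → 3 := by
    rintro ⟨hz, hηθ⟩ ε hε
    obtain ⟨-, h2, -⟩ := Pool.Agent.Results.MP_553913_nt.ExactExponents.result a b hΔ F hF N f hf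
      (fun u => (1 - u) ^ k)
    have h3 := h2 1 θ one_pos le_rfl hθ (riesz_bv k)
      (fun u hu => absurd hu.2 (not_le.2 hu.1)) (riesz_not_vanishes k)
    have h30 := (h3.out 0 1).1 hz
    obtain ⟨C, hC⟩ := h30 (ε / 2) (by positivity)
    filter_upwards [diff_le hup hη k (show 0 < ε / 2 by positivity), eventually_gt_atTop 1,
      (tendsto_rpow_atTop (show 0 < ε / 2 by positivity)).eventually_ge_atTop (|C| + 1)]
      with x h4 hx h5
    have hx0 : 0 < x := by linarith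
    have h6 := hC x hx
    rw [weighted_riesz, one_mul] at h6
    have h7 : x ^ (η + ε / 2) ≤ x ^ (θ + ε / 2) :=
      Real.rpow_le_rpow_of_exponent_le hx.le (by linarith)
    have h8 : |wriesz w a b k x| ≤ |wriesz w a b k x - riesz a b k x| + |riesz a b k x| := by
      have := abs_add_le (wriesz w a b k x - riesz a b k x) (riesz a b k x)
      rwa [sub_add_cancel] at this
    have h9 : C * x ^ (θ + ε / 2) ≤ |C| * x ^ (θ + ε / 2) :=
      mul_le_mul_of_nonneg_right (le_abs_self C) (by positivity)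
    calc |wriesz w a b k x| ≤ (|C| + 1) * x ^ (θ + ε / 2) := by linarith
      _ ≤ x ^ (ε / 2) * x ^ (θ + ε / 2) := mul_le_mul_of_nonneg_right h5 (by positivity)
      _ = x ^ (θ + ε) := by
          rw [← Real.rpow_add hx0]
          congr 1
          ring
  tfae_have 3 → 2 := by
    intro h ε hε
    filter_upwards [h ε hε] with x hx
    exact (le_abs_self _).trans hx
  tfae_have 2 → 1 := by
    intro h
    have hηθ : η ≤ θ := by
      by_contra hcon
      push Not at hcon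
      have hg : 0 < (η - θ) / 3 := by linarith
      obtain ⟨x, ⟨h1, h2⟩, h3⟩ := (((hlow (by linarith) k _ hg).and_eventually (h _ hg)).and_eventually
        (eventually_gt_atTop 1)).exists
      have h4 : x ^ (θ + (η - θ) / 3) < x ^ (η - (η - θ) / 3) :=
        Real.rpow_lt_rpow_of_exponent_lt h3 (by linarith)
      linarith
    refine ⟨nozeros_of_le hΔ hF k (fun ε hε => ?_) hθ, hηθ⟩
    filter_upwards [h (ε / 2) (by positivity), diff_le hup hη k (show 0 < ε / 2 by positivity),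
      eventually_gt_atTop 1,
      (tendsto_rpow_atTop (show 0 < ε / 2 by positivity)).eventually_ge_atTop 2]
      with x h1 h2 hx h3
    have hx0 : 0 < x := by linarith
    have h4 := (abs_le.1 h2).1
    have h7 : x ^ (η + ε / 2) ≤ x ^ (θ + ε / 2) :=
      Real.rpow_le_rpow_of_exponent_le hx.le (by linarith)
    calc riesz a b k x ≤ 2 * x ^ (θ + ε / 2) := by linarith
      _ ≤ x ^ (ε / 2) * x ^ (θ + ε / 2) := mul_le_mul_of_nonneg_right h3 (by positivity)
      _ = x ^ (θ + ε) := by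
          rw [← Real.rpow_add hx0]
          congr 1
          ring
  tfae_finish

theorem bv_iff (hΔ : 4 * a ^ 3 + 27 * b ^ 2 ≠ 0) (hF : IsLSeries a b F)
    {N : ℕ} [NeZero N] {f : CuspForm (Gamma0 N : Subgroup (GL (Fin 2) ℝ)) 2}
    (hf : IsNewformOf a b N f) (hη : 0 ≤ η)
    (hup : ∀ ε : ℝ, 0 < ε → ∃ C : ℝ, ∀ n : ℕ,
      |∑ i ∈ Finset.range n, (w i - 1) * yy a b i| ≤ C * ((n : ℝ) + 1) ^ (η + ε))
    {K : ℝ → ℝ} (hK : BoundedVariationOn K (Icc 0 1)) {β y : ℝ} (hβ : 0 < β)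
    (hβ1 : β ≤ 1) (hKβ : ∀ u ∈ Ioc β 1, K u = 0) (hnv : ∀ α < β, ¬ Vanishes K α β) (hy : η ≤ y) :
    NoZeros F y ↔ ∀ ε : ℝ, 0 < ε → ∃ C : ℝ, ∀ X : ℝ, 1 < X →
      |sampled w a b K X| ≤ C * X ^ (β * y + ε) := by
  obtain ⟨-, h2, -⟩ := Pool.Agent.Results.MP_553913_nt.ExactExponents.result a b hΔ F hF N f hf K
  have h3 := (h2 β y hβ hβ1 (hη.trans hy) hK hKβ hnv).out 0 1
  rw [h3]
  have hexp : ∀ ε : ℝ, 0 < ε → ∀ X : ℝ, 1 < X → X ^ (β * (η + ε)) ≤ X ^ (β * y + ε) := by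
    intro ε hε X hX
    refine Real.rpow_le_rpow_of_exponent_le hX.le ?_
    have h4 : β * η ≤ β * y := mul_le_mul_of_nonneg_left hy hβ.le
    have h5 : β * ε ≤ ε := mul_le_of_le_one_left hε.le hβ1
    linarith
  constructor
  · intro h ε hε
    obtain ⟨C, hC⟩ := h ε hε
    obtain ⟨C', hC'0, hC'⟩ := noise_bv hup hη hK hβ hβ1 hKβ hε
    refine ⟨C + C', fun X hX => ?_⟩
    have h4 := hC X hX
    have h5 := hC' X hX
    have h6 := mul_le_mul_of_nonneg_left (hexp ε hε X hX) hC'0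
    have h8 : |sampled w a b K X| ≤ |sampled w a b K X - weighted a b K X| + |weighted a b K X| := by
      have := abs_add_le (sampled w a b K X - weighted a b K X) (weighted a b K X)
      rwa [sub_add_cancel] at this
    linarith
  · intro h ε hε
    obtain ⟨C, hC⟩ := h ε hε
    obtain ⟨C', hC'0, hC'⟩ := noise_bv hup hη hK hβ hβ1 hKβ hε
    refine ⟨C + C', fun X hX => ?_⟩
    have h4 := hC X hX
    have h5 := hC' X hX
    have h6 := mul_le_mul_of_nonneg_left (hexp ε hε X hX) hC'0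
    have h8 : |weighted a b K X| ≤ |sampled w a b K X| + |sampled w a b K X - weighted a b K X| := by
      have := abs_sub (sampled w a b K X) (sampled w a b K X - weighted a b K X)
      rwa [sub_sub_cancel] at this
    linarith

end Pool.Agent.H564.SP
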