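import Pool.Agent.H564.SP.Sparse

/-! Sparse random samples of the primes: the noise is as large as possible infinitely often. -/

set_option autoImplicit false

namespace Pool.Agent.H564.SP

open MeasureTheory Filter Topology Set Classical ProbabilityTheory
open Pool.Agent.H564.BSD
open Pool.Agent.Results.MP_8b7eba_nt.OneSidedRieszMeans (riesz)

variable {δ : ℕ → ℝ} {η : ℝ} {a b : ℤ}

/-- mean square in the windows `(x^θ, x]` -/
def RSW (a b : ℤ) : Prop := ∀ θ : ℝ, 0 < θ → θ < 1 →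
  ∃ κ : ℝ, 0 < κ ∧ ∀ᶠ u : ℝ in atTop, κ ≤ SW (fun i => yy a b i ^ 2) (θ * u) u

/-- the Riesz weights -/
noncomputable def rw' (k : ℕ) (x : ℝ) (i : ℕ) : ℝ := (1 - Real.log i / Real.log x) ^ (k : ℝ)

theorem rw_bounds {k : ℕ} {x : ℝ} (hx : 1 < x) {i : ℕ} (hi : i < ⌊x⌋₊ + 1) :
    0 ≤ rw' k x i ∧ rw' k x i ≤ 1 := by
  have hlx : 0 < Real.log x := Real.log_pos hx
  have h0 : 0 ≤ Real.log (i : ℝ) / Real.log x := by
    refine div_nonneg ?_ hlx.le
    exact Real.log_natCast_nonneg i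
  have h1 : Real.log (i : ℝ) / Real.log x ≤ 1 := by
    rw [div_le_one hlx]
    rcases Nat.eq_zero_or_pos i with rfl | h0
    · simp only [Nat.cast_zero, Real.log_zero]; exact hlx.le
    · refine Real.log_le_log (by exact_mod_cast h0) ?_
      exact (Nat.cast_le.2 (Nat.lt_succ_iff.1 hi)).trans (Nat.floor_le (by linarith))
  unfold rw'
  constructor
  · exact Real.rpow_nonneg (by linarith) _
  · exact Real.rpow_le_one (by linarith) (by linarith) (Nat.cast_nonneg k)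

/-- lower bound for the variance -/
theorem var_lower (hδ0 : ∀ p, 0 < δ p) (hδ1 : ∀ p, δ p ≤ 1) (hη : 0 < η) (hη1 : η < 1 / 2)
    (hd : Dens δ η) (hw : RSW a b) (k : ℕ) {ε : ℝ} (hε : 0 < ε) (hε1 : ε ≤ 1) (hεη : ε ≤ η) :
    ∀ᶠ x : ℝ in atTop, 100 * x ^ (2 * η - 2 * ε) ≤
      ∑ i ∈ Finset.range (⌊x⌋₊ + 1), (rw' k x i * yy a b i) ^ 2 * (1 / δ i - 1) := by
  set e : ℝ := ε / 4 with he
  have he0 : 0 < e := by positivity
  have he4 : e ≤ 1 / 4 := by linarith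
  set θ : ℝ := (1 - 2 * e) / (1 - e) with hθ
  have h1e : 0 < 1 - e := by linarith
  have hθ0 : 0 < θ := div_pos (by linarith) h1e
  have hθ1 : θ < 1 := by rw [hθ, div_lt_one h1e]; linarith
  obtain ⟨κ, hκ, hκw⟩ := hw θ hθ0 hθ1
  have hlog := Real.tendsto_log_atTop
  have ht : Tendsto (fun x : ℝ => (1 - e) * Real.log x) atTop atTop := hlog.const_mul_atTop h1e
  have hs : Tendsto (fun x : ℝ => x ^ (1 - 2 * e)) atTop atTop :=
    tendsto_rpow_atTop (by linarith)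
  obtain ⟨N, hN⟩ := eventually_atTop.1 (hd (ε / 2) (by positivity))
  have hgap : 0 < (1 - 2 * e) * (2 * η - ε / 2) - (2 * η - 2 * ε) := by
    have : (1 - 2 * e) * (2 * η - ε / 2) - (2 * η - 2 * ε) = 3 / 2 * ε - 4 * e * η + e * ε := by ring
    rw [this, he]
    nlinarith
  set g : ℝ := (1 - 2 * e) * (2 * η - ε / 2) - (2 * η - 2 * ε) with hg
  set c₀ : ℝ := 1 / 2 * (e ^ k) ^ 2 * κ with hc₀
  have hc₀0 : 0 < c₀ := by positivity
  filter_upwards [ht.eventually hκw, hs.eventually_ge_atTop (N + 2 : ℝ), eventually_gt_atTop 1,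
    (tendsto_rpow_atTop hgap).eventually_ge_atTop (100 / c₀),
    (tendsto_rpow_atTop (show 0 < (1 - 2 * e) * (2 * η - ε / 2) by
      have : 0 < 2 * η - ε / 2 := by linarith
      have : 0 < 1 - 2 * e := by linarith
      positivity)).eventually_ge_atTop 2] with x h1 h2 hx h3 h4
  have hx0 : 0 < x := by linarith
  have hlx : 0 < Real.log x := Real.log_pos hx
  have hexp1 : Real.exp ((1 - e) * Real.log x) = x ^ (1 - e) := by
    rw [Real.rpow_def_of_pos hx0, mul_comm]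
  have hexp2 : Real.exp (θ * ((1 - e) * Real.log x)) = x ^ (1 - 2 * e) := by
    rw [Real.rpow_def_of_pos hx0, hθ]
    congr 1
    have h5 : (1 - 2 * e) / (1 - e) * ((1 - e) * Real.log x) =
        ((1 - 2 * e) / (1 - e) * (1 - e)) * Real.log x := by ring
    rw [h5, div_mul_cancel₀ _ h1e.ne', mul_comm]
  have hterm : ∀ i ∈ Finset.range (⌊x⌋₊ + 1), 0 ≤ (rw' k x i * yy a b i) ^ 2 * (1 / δ i - 1) := by
    intro i _
    refine mul_nonneg (sq_nonneg _) ?_
    have h5 : 1 ≤ 1 / δ i := by rw [le_div_iff₀ (hδ0 i)]; linarith [hδ1 i]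
    linarith
  -- restrict to the window
  have hsub : Finset.range (⌊x ^ (1 - e)⌋₊ + 1) ⊆ Finset.range (⌊x⌋₊ + 1) := by
    refine Finset.range_subset_range.2 ?_
    have : x ^ (1 - e) ≤ x := by
      calc x ^ (1 - e) ≤ x ^ (1 : ℝ) := Real.rpow_le_rpow_of_exponent_le hx.le (by linarith)
        _ = x := Real.rpow_one x
    have := Nat.floor_le_floor this
    omega
  have hmain : 1 / 2 * (e ^ k) ^ 2 * x ^ ((1 - 2 * e) * (2 * η - ε / 2)) *
      SW (fun i => yy a b i ^ 2) (θ * ((1 - e) * Real.log x)) ((1 - e) * Real.log x) ≤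
      ∑ i ∈ Finset.range (⌊x⌋₊ + 1), (rw' k x i * yy a b i) ^ 2 * (1 / δ i - 1) := by
    refine le_trans ?_ (Finset.sum_le_sum_of_subset_of_nonneg hsub fun i hi _ => hterm i hi)
    unfold SW
    rw [hexp1, hexp2, Finset.mul_sum]
    refine Finset.sum_le_sum fun i hi => ?_
    have hi' := hi
    rw [Finset.mem_range] at hi
    split_ifs with h5
    · by_cases hp : i.Prime
      swap
      · simp only [yy_zero_of_not_prime hp]
        norm_num
      have hi0 : (0 : ℝ) < i := by exact_mod_cast hp.pos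
      have hix : (i : ℝ) ≤ x ^ (1 - e) :=
        (Nat.cast_le.2 (Nat.lt_succ_iff.1 hi)).trans (Nat.floor_le (by positivity))
      -- the Riesz weight
      have h6 : e ^ k ≤ rw' k x i := by
        unfold rw'
        rw [← Real.rpow_natCast]
        refine Real.rpow_le_rpow he0.le ?_ (Nat.cast_nonneg k)
        have h7 : Real.log i ≤ (1 - e) * Real.log x := by
          rw [← Real.log_rpow hx0]
          exact Real.log_le_log hi0 hix
        have h8 : Real.log (i : ℝ) / Real.log x ≤ 1 - e := by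
          rw [div_le_iff₀ hlx]
          exact h7
        linarith
      -- the density
      have h7 : N ≤ i := by
        have : (N : ℝ) ≤ i := by linarith
        exact_mod_cast this
      have h8 := (hN i h7 hp).2
      have h9 : x ^ ((1 - 2 * e) * (2 * η - ε / 2)) ≤ 1 / δ i := by
        rw [le_div_iff₀ (hδ0 i)]
        have h10 : x ^ ((1 - 2 * e) * (2 * η - ε / 2)) ≤ (i : ℝ) ^ (2 * η - ε / 2) := by
          rw [Real.rpow_mul hx0.le]
          exact Real.rpow_le_rpow (by positivity) h5.le (by linarith)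
        calc x ^ ((1 - 2 * e) * (2 * η - ε / 2)) * δ i
            ≤ (i : ℝ) ^ (2 * η - ε / 2) * (i : ℝ) ^ (-(2 * η) + ε / 2) :=
              mul_le_mul h10 h8 (hδ0 i).le (by positivity)
          _ = 1 := by
              rw [← Real.rpow_add hi0, show 2 * η - ε / 2 + (-(2 * η) + ε / 2) = 0 by ring,
                Real.rpow_zero]
      have h10 : 1 / 2 * x ^ ((1 - 2 * e) * (2 * η - ε / 2)) ≤ 1 / δ i - 1 := by linarith
      have h11 : (e ^ k) ^ 2 ≤ rw' k x i ^ 2 := pow_le_pow_left₀ (by positivity) h6 2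
      calc 1 / 2 * (e ^ k) ^ 2 * x ^ ((1 - 2 * e) * (2 * η - ε / 2)) * yy a b i ^ 2
          = ((e ^ k) ^ 2 * yy a b i ^ 2) * (1 / 2 * x ^ ((1 - 2 * e) * (2 * η - ε / 2))) := by ring
        _ ≤ (rw' k x i ^ 2 * yy a b i ^ 2) * (1 / δ i - 1) := by
            refine mul_le_mul ?_ h10 (by positivity) (by positivity)
            exact mul_le_mul_of_nonneg_right h11 (sq_nonneg _)
        _ = (rw' k x i * yy a b i) ^ 2 * (1 / δ i - 1) := by ring
    · rw [mul_zero]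
      exact hterm i (hsub hi')
  refine le_trans ?_ hmain
  calc 100 * x ^ (2 * η - 2 * ε) ≤ (c₀ * x ^ g) * x ^ (2 * η - 2 * ε) := by
        refine mul_le_mul_of_nonneg_right ?_ (by positivity)
        rw [div_le_iff₀ hc₀0] at h3
        linarith
    _ = c₀ * x ^ ((1 - 2 * e) * (2 * η - ε / 2)) := by
        rw [mul_assoc, ← Real.rpow_add hx0]
        congr 2
        rw [hg]
        ring
    _ = 1 / 2 * (e ^ k) ^ 2 * x ^ ((1 - 2 * e) * (2 * η - ε / 2)) * κ := by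
        rw [hc₀]
        ring
    _ ≤ _ := mul_le_mul_of_nonneg_left h1 (by positivity)

/-- upper bound for the fourth moments -/
theorem fourth_upper (hδ0 : ∀ p, 0 < δ p) (hη : 0 < η)
    (hd : Dens δ η) (k : ℕ) {ε : ℝ} (hε : 0 < ε) (h9 : 9 * ε ≤ 1 - 2 * η) (h5 : 5 * ε ≤ 4 * η)
    (a b : ℤ) :
    ∀ᶠ x : ℝ in atTop,
      ∑ i ∈ Finset.range (⌊x⌋₊ + 1), (rw' k x i * yy a b i) ^ 4 / δ i ^ 3 ≤
        (100 * x ^ (2 * η - 2 * ε)) ^ 2 := by
  obtain ⟨C, hC0, hC⟩ := hd.inv_le hδ0 hη.le hε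
  obtain ⟨C₁, hC₁, hy⟩ := yy_bound a b
  set S : ℝ := ∑' n : ℕ, (n : ℝ) ^ (-1 - ε) with hS
  have hsum : Summable fun n : ℕ => (n : ℝ) ^ (-1 - ε) := Real.summable_nat_rpow.2 (by linarith)
  filter_upwards [eventually_gt_atTop 1,
    (tendsto_rpow_atTop hε).eventually_ge_atTop (C₁ ^ 4 * C ^ 3 * S)] with x hx hxε
  have hx0 : 0 < x := by linarith
  have hterm : ∀ i ∈ Finset.range (⌊x⌋₊ + 1), (rw' k x i * yy a b i) ^ 4 / δ i ^ 3 ≤
      C₁ ^ 4 * C ^ 3 * x ^ (4 * η - 5 * ε) * (i : ℝ) ^ (-1 - ε) := by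
    intro i hi
    rw [Finset.mem_range] at hi
    by_cases hp : i.Prime
    swap
    · rw [yy_zero_of_not_prime hp]
      simp only [mul_zero, ne_eq, OfNat.ofNat_ne_zero, not_false_eq_true, zero_pow, zero_div]
      positivity
    have hi0 : (0 : ℝ) < i := by exact_mod_cast hp.pos
    have hi1 : (1 : ℝ) ≤ i := by exact_mod_cast hp.one_lt.le
    have hix : (i : ℝ) ≤ x := (Nat.cast_le.2 (Nat.lt_succ_iff.1 hi)).trans (Nat.floor_le hx0.le)
    obtain ⟨b1, b2⟩ := rw_bounds (k := k) hx hi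
    have h1 : yy a b i ^ 4 ≤ C₁ ^ 4 / (i : ℝ) ^ 2 := by
      have h4 := pow_le_pow_left₀ (abs_nonneg _) (hy i) 4
      rw [show |yy a b i| ^ 4 = yy a b i ^ 4 by
        rw [show (4 : ℕ) = 2 * 2 by norm_num, pow_mul, pow_mul, sq_abs], div_pow] at h4
      have e4 : √(i : ℝ) ^ 4 = (i : ℝ) ^ 2 := by
        rw [show (4 : ℕ) = 2 * 2 by norm_num, pow_mul, Real.sq_sqrt hi0.le]
      rw [e4] at h4
      exact h4
    have h2 : (rw' k x i * yy a b i) ^ 4 ≤ C₁ ^ 4 / (i : ℝ) ^ 2 := by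
      rw [mul_pow]
      have : rw' k x i ^ 4 ≤ 1 := pow_le_one₀ b1 b2
      refine le_trans ?_ h1
      exact mul_le_of_le_one_left (by positivity) this
    have h3 : (1 / δ i) ^ 3 ≤ (C * (i : ℝ) ^ (2 * η + ε)) ^ 3 :=
      pow_le_pow_left₀ (one_div_pos.2 (hδ0 i)).le (hC i hp) 3
    have h4 : (i : ℝ) ^ (4 * η - 5 * ε) ≤ x ^ (4 * η - 5 * ε) :=
      Real.rpow_le_rpow hi0.le hix (by linarith)
    calc (rw' k x i * yy a b i) ^ 4 / δ i ^ 3 = (rw' k x i * yy a b i) ^ 4 * (1 / δ i) ^ 3 := by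
          rw [one_div, inv_pow, div_eq_mul_inv]
      _ ≤ (C₁ ^ 4 / (i : ℝ) ^ 2) * (C * (i : ℝ) ^ (2 * η + ε)) ^ 3 :=
          mul_le_mul h2 h3 (by have := hδ0 i; positivity) (by positivity)
      _ = C₁ ^ 4 * C ^ 3 * ((i : ℝ) ^ (3 * (2 * η + ε)) * (i : ℝ) ^ (-2 : ℝ)) := by
          rw [mul_pow, ← Real.rpow_natCast ((i : ℝ) ^ (2 * η + ε)) 3, ← Real.rpow_mul hi0.le,
            Real.rpow_neg hi0.le, show ((i : ℝ) ^ (2 : ℝ)) = (i : ℝ) ^ 2 by norm_cast]
          push_cast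
          rw [mul_comm (2 * η + ε) 3]
          ring
      _ = C₁ ^ 4 * C ^ 3 * (i : ℝ) ^ (3 * (2 * η + ε) + -2) := by rw [Real.rpow_add hi0]
      _ ≤ C₁ ^ 4 * C ^ 3 * (i : ℝ) ^ ((4 * η - 5 * ε) + (-1 - ε)) := by
          refine mul_le_mul_of_nonneg_left ?_ (by positivity)
          exact Real.rpow_le_rpow_of_exponent_le hi1 (by linarith)
      _ = C₁ ^ 4 * C ^ 3 * ((i : ℝ) ^ (4 * η - 5 * ε) * (i : ℝ) ^ (-1 - ε)) := by
          rw [Real.rpow_add hi0]
      _ ≤ C₁ ^ 4 * C ^ 3 * (x ^ (4 * η - 5 * ε) * (i : ℝ) ^ (-1 - ε)) := by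
          refine mul_le_mul_of_nonneg_left ?_ (by positivity)
          exact mul_le_mul_of_nonneg_right h4 (by positivity)
      _ = _ := by ring
  refine (Finset.sum_le_sum hterm).trans ?_
  rw [← Finset.mul_sum]
  have h6 : ∑ i ∈ Finset.range (⌊x⌋₊ + 1), (i : ℝ) ^ (-1 - ε) ≤ S :=
    hsum.sum_le_tsum _ fun i _ => by positivity
  calc C₁ ^ 4 * C ^ 3 * x ^ (4 * η - 5 * ε) * ∑ i ∈ Finset.range (⌊x⌋₊ + 1), (i : ℝ) ^ (-1 - ε)
      ≤ C₁ ^ 4 * C ^ 3 * x ^ (4 * η - 5 * ε) * S := mul_le_mul_of_nonneg_left h6 (by positivity)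
    _ = (C₁ ^ 4 * C ^ 3 * S) * x ^ (4 * η - 5 * ε) := by ring
    _ ≤ x ^ ε * x ^ (4 * η - 5 * ε) := mul_le_mul_of_nonneg_right hxε (by positivity)
    _ = (x ^ (2 * η - 2 * ε)) ^ 2 := by
        rw [← Real.rpow_add hx0, ← Real.rpow_natCast, ← Real.rpow_mul hx0.le]
        congr 1
        push_cast
        ring
    _ ≤ (100 * x ^ (2 * η - 2 * ε)) ^ 2 := by
        rw [mul_pow]
        have : 0 ≤ (x ^ (2 * η - 2 * ε)) ^ 2 := by positivity
        linarith

end Pool.Agent.H564.SP
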