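import Pool.Graph.R_pool_sql_team_seeded_b0a926ef.Results.MP_553913_nt.ExactExponents
import Pool.Agent.H564.SP.Var

/-! Sparse random samples of the primes: the exact exponents. -/

set_option autoImplicit false

namespace Pool.Agent.H564.SP

open MeasureTheory Filter Topology Set Classical ProbabilityTheory
open CongruenceSubgroup UpperHalfPlane
open scoped MatrixGroups
open Pool.Agent.W263.BSD (GoodPrime pointCount IsLSeries)
open Pool.Agent.H564.BSD
open Pool.Agent.Results.MP_8b7eba_nt.OneSidedRieszMeans (riesz)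
open Pool.Agent.Results.MP_553913_nt.ExactExponents (weighted IsNewformOf Vanishes NoZeros hecke)

variable {δ : ℕ → ℝ} {η : ℝ} {a b : ℤ}

section

variable {Ω : Type*} [mΩ : MeasurableSpace Ω] {μ : Measure Ω} [IsProbabilityMeasure μ]
  {A : ℕ → Set Ω}

/-- a Riesz mean of the sample is large infinitely often -/
theorem sample_lower (hA : ∀ p, MeasurableSet (A p)) (hind : iIndepSet A μ)
    (hδ0 : ∀ p, 0 < δ p) (hδ1 : ∀ p, δ p ≤ 1) (hμ : ∀ p, μ (A p) = ENNReal.ofReal (δ p))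
    (hη : 0 < η) (hη1 : η < 1 / 2) (hd : Dens δ η) (hw : RSW a b) (k : ℕ) {M : ℝ}
    (hM : ∃ᶠ x : ℝ in atTop, -M < riesz a b k x) :
    ∀ᵐ ω ∂μ, ∀ ε : ℝ, 0 < ε → ∃ᶠ x : ℝ in atTop, x ^ (η - ε) ≤ wriesz (wt A δ ω) a b k x := by
  obtain ⟨s, hs, hsM⟩ := exists_seq_forall_of_frequently hM
  set m : ℕ → ℕ := fun j => ⌊s j⌋₊ + 1 with hm
  set c : ℕ → ℕ → ℝ := fun j i => if i < m j ∧ 1 < s j then rw' k (s j) i * yy a b i else 0 with hc
  have hcC : ∀ j i, |c j i| ≤ |yy a b i| := by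
    intro j i
    simp only [hc]
    split_ifs with h
    · obtain ⟨b1, b2⟩ := rw_bounds (k := k) h.2 h.1
      rw [abs_mul, abs_of_nonneg b1]
      exact mul_le_of_le_one_left (abs_nonneg _) b2
    · rw [abs_zero]
      exact abs_nonneg _
  have hceq : ∀ j, 1 < s j → ∀ i ∈ Finset.range (m j), c j i = rw' k (s j) i * yy a b i := by
    intro j hj i hi
    rw [Finset.mem_range] at hi
    simp only [hc]
    rw [if_pos ⟨hi, hj⟩]
  have key : ∀ q : ℕ, ∀ ε : ℝ, 0 < ε → ε ≤ 1 → ε < η → 9 * ε ≤ 1 - 2 * η → 5 * ε ≤ 4 * η →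
      ∀ᵐ ω ∂μ, ∃ᶠ j in atTop, 1 / 2 * (s j) ^ (η - ε) ≤
        ∑ i ∈ Finset.range (m j), (wt A δ ω i - 1) * c j i := by
    intro q ε hε hε1 hεη h9 h5
    have hb : Tendsto (fun j => (s j) ^ (η - ε)) atTop atTop :=
      (tendsto_rpow_atTop (by linarith)).comp hs
    have hvar := hs.eventually (var_lower hδ0 hδ1 hη hη1 hd hw k hε hε1 hεη.le)
    have hfour := hs.eventually (fourth_upper hδ0 hη hd k hε h9 h5 a b)
    have h1 := noise_lower (μ := μ) (m := m) hA hind hδ0 hδ1 hμ hcC hb one_pos ?_ ?_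
    · filter_upwards [h1] with ω hω
      exact hω (1 / 2) (by norm_num)
    · filter_upwards [hvar, hs.eventually_gt_atTop 1] with j h2 h3
      have e1 : 100 * (1 : ℝ) ^ 2 * ((s j) ^ (η - ε)) ^ 2 = 100 * (s j) ^ (2 * η - 2 * ε) := by
        rw [one_pow, mul_one, ← Real.rpow_natCast ((s j) ^ (η - ε)) 2, ← Real.rpow_mul (by linarith)]
        congr 2
        push_cast
        ring
      rw [e1]
      refine h2.trans (le_of_eq (Finset.sum_congr rfl fun i hi => ?_))
      rw [hceq j h3 i hi]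
    · filter_upwards [hvar, hfour, hs.eventually_gt_atTop 1] with j h2 h4 h3
      have e1 : ∑ i ∈ Finset.range (m j), c j i ^ 2 * (1 / δ i - 1) =
          ∑ i ∈ Finset.range (⌊s j⌋₊ + 1), (rw' k (s j) i * yy a b i) ^ 2 * (1 / δ i - 1) :=
        Finset.sum_congr rfl fun i hi => by rw [hceq j h3 i hi]
      have e2 : ∑ i ∈ Finset.range (m j), c j i ^ 4 / δ i ^ 3 =
          ∑ i ∈ Finset.range (⌊s j⌋₊ + 1), (rw' k (s j) i * yy a b i) ^ 4 / δ i ^ 3 :=
        Finset.sum_congr rfl fun i hi => by rw [hceq j h3 i hi]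
      rw [e1, e2]
      have h0 : 0 ≤ 100 * (s j) ^ (2 * η - 2 * ε) := by
        have : 0 < s j := by linarith
        positivity
      exact h4.trans (pow_le_pow_left₀ h0 h2 2)
  set e₀ : ℝ := min (min 1 (η / 2)) ((1 - 2 * η) / 9) with he₀
  have he₀0 : 0 < e₀ := by
    rw [he₀]
    refine lt_min (lt_min one_pos (by linarith)) ?_
    have : 0 < 1 - 2 * η := by linarith
    positivity
  have he₀1 : e₀ ≤ 1 := (min_le_left _ _).trans (min_le_left _ _)
  have he₀η : e₀ ≤ η / 2 := (min_le_left _ _).trans (min_le_right _ _)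
  have he₀9 : e₀ ≤ (1 - 2 * η) / 9 := min_le_right _ _
  have key2 : ∀ᵐ ω ∂μ, ∀ q : ℕ, ∃ᶠ j in atTop, 1 / 2 * (s j) ^ (η - e₀ / ((q : ℝ) + 1)) ≤
        ∑ i ∈ Finset.range (m j), (wt A δ ω i - 1) * c j i := by
    rw [ae_all_iff]
    intro q
    have hq : e₀ / ((q : ℝ) + 1) ≤ e₀ := div_le_self he₀0.le (by linarith [Nat.cast_nonneg (α := ℝ) q])
    have hq0 : 0 < e₀ / ((q : ℝ) + 1) := by positivity
    exact key q _ hq0 (by linarith) (by linarith) (by linarith) (by linarith)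
  filter_upwards [key2] with ω hω ε hε
  obtain ⟨q, hq⟩ := exists_nat_one_div_lt (show 0 < min ε e₀ / e₀ by positivity)
  set e : ℝ := e₀ / ((q : ℝ) + 1) with he
  have heε : e < ε := by
    have h1 : 1 / ((q : ℝ) + 1) * e₀ < min ε e₀ / e₀ * e₀ := mul_lt_mul_of_pos_right hq he₀0
    rw [div_mul_cancel₀ _ he₀0.ne'] at h1
    have h2 : e = 1 / ((q : ℝ) + 1) * e₀ := by rw [he]; ring
    rw [h2]
    exact lt_of_lt_of_le h1 (min_le_left _ _)
  have he1 : e ≤ e₀ := div_le_self he₀0.le (by linarith [Nat.cast_nonneg (α := ℝ) q])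
  -- pass to the sequence
  have hlarge : ∀ᶠ j in atTop, (s j) ^ (η - ε) ≤ 1 / 2 * (s j) ^ (η - e) - M := by
    have t1 : Tendsto (fun j => (s j) ^ (ε - e)) atTop atTop :=
      (tendsto_rpow_atTop (by linarith)).comp hs
    have t2 : Tendsto (fun j => (s j) ^ (η - e)) atTop atTop :=
      (tendsto_rpow_atTop (by linarith)).comp hs
    filter_upwards [t1.eventually_ge_atTop 4, t2.eventually_ge_atTop (4 * |M|),
      hs.eventually_gt_atTop 1] with j h1 h2 h3
    have hs0 : 0 < s j := by linarith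
    have h4 : (s j) ^ (η - ε) * 4 ≤ (s j) ^ (η - e) := by
      calc (s j) ^ (η - ε) * 4 ≤ (s j) ^ (η - ε) * (s j) ^ (ε - e) :=
            mul_le_mul_of_nonneg_left h1 (by positivity)
        _ = (s j) ^ (η - e) := by
            rw [← Real.rpow_add hs0]
            congr 1
            ring
    linarith [le_abs_self M]
  have hfreq : ∃ᶠ j in atTop, (s j) ^ (η - ε) ≤ wriesz (wt A δ ω) a b k (s j) := by
    refine ((hω q).and_eventually (hlarge.and (hs.eventually_gt_atTop 1))).mono ?_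
    rintro j ⟨h1, h2, h3⟩
    refine h2.trans ?_
    have e1 : ∑ i ∈ Finset.range (m j), (wt A δ ω i - 1) * c j i =
        wriesz (wt A δ ω) a b k (s j) - riesz a b k (s j) := by
      rw [wriesz_eq, riesz_eq, ← Finset.sum_sub_distrib]
      refine Finset.sum_congr rfl fun i hi => ?_
      rw [hceq j h3 i hi]
      unfold rw'
      ring
    rw [e1] at h1
    linarith [hsM j]
  exact hs.frequently hfreq

end

/-- the sample differs from the full mean by the noise -/
theorem diff_le {w : ℕ → ℝ} {a b : ℤ}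
    (h : ∀ ε : ℝ, 0 < ε → ∃ C : ℝ, ∀ n : ℕ,
      |∑ i ∈ Finset.range n, (w i - 1) * yy a b i| ≤ C * ((n : ℝ) + 1) ^ (η + ε))
    (hη : 0 ≤ η) (k : ℕ) {ε : ℝ} (hε : 0 < ε) :
    ∀ᶠ x : ℝ in atTop, |wriesz w a b k x - riesz a b k x| ≤ x ^ (η + ε) := by
  obtain ⟨C, hC⟩ := h (ε / 2) (by positivity)
  filter_upwards [eventually_ge_atTop 2,
    (tendsto_rpow_atTop (show 0 < ε / 2 by positivity)).eventually_ge_atTop (|C| * 2 ^ (η + ε / 2))]
    with x hx h2
  have hx0 : 0 < x := by linarith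
  have h3 : wriesz w a b k x - riesz a b k x = ∑ i ∈ Finset.range (⌊x⌋₊ + 1),
      (1 - Real.log i / Real.log x) ^ (k : ℝ) * ((w i - 1) * yy a b i) := by
    rw [wriesz_eq, riesz_eq, ← Finset.sum_sub_distrib]
    exact Finset.sum_congr rfl fun i _ => by ring
  rw [h3]
  refine (weight_anti (Nat.cast_nonneg k) (by linarith) _ (M := |C| * (2 * x) ^ (η + ε / 2))
    fun j hj => ?_).trans ?_
  · refine (hC j).trans ?_
    have h4 : ((j : ℝ) + 1) ≤ 2 * x := by
      have h5 : (j : ℝ) ≤ (⌊x⌋₊ : ℝ) + 1 := by exact_mod_cast hj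
      have h6 := Nat.floor_le hx0.le
      linarith
    have h5 : ((j : ℝ) + 1) ^ (η + ε / 2) ≤ (2 * x) ^ (η + ε / 2) :=
      Real.rpow_le_rpow (by positivity) h4 (by linarith)
    exact mul_le_mul (le_abs_self C) h5 (by positivity) (abs_nonneg _)
  · calc |C| * (2 * x) ^ (η + ε / 2) = (|C| * 2 ^ (η + ε / 2)) * x ^ (η + ε / 2) := by
          rw [Real.mul_rpow (by norm_num) hx0.le]
          ring
      _ ≤ x ^ (ε / 2) * x ^ (η + ε / 2) := mul_le_mul_of_nonneg_right h2 (by positivity)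
      _ = x ^ (η + ε) := by
          rw [← Real.rpow_add hx0]
          congr 1
          ring

end Pool.Agent.H564.SP
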