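import Pool.Agent.H564.BSD.Prob

/-! Moments of sums of independent centred random variables, and a one-sided Paley-Zygmund inequality. -/

set_option autoImplicit false

namespace Pool.Agent.H564.SP

open Finset Filter Topology MeasureTheory ProbabilityTheory

theorem poly_le {t : ℝ} : 2 * t + t ^ 2 - t ^ 4 / 8 ≤ 29 / 4 := by
  nlinarith [sq_nonneg (t ^ 2 - 5), sq_nonneg (t - 4), sq_nonneg (t - 2), sq_nonneg (t ^ 2 - 6)]

theorem poly_le' {t : ℝ} (ht : t ≤ 1 / 10) : 2 * t + t ^ 2 - t ^ 4 / 8 ≤ 1 / 4 := by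
  have h4 : 0 ≤ t ^ 4 := by positivity
  rcases le_total 0 t with h | h
  · nlinarith
  · rcases le_total (-2) t with h2 | h2
    · nlinarith
    · nlinarith [sq_nonneg (t ^ 2 - 4)]

/-- **One-sided Paley-Zygmund inequality.** -/
theorem pz {Ω : Type*} [MeasurableSpace Ω] {μ : Measure Ω} [IsProbabilityMeasure μ] {Z : Ω → ℝ}
    (hm : Measurable Z) (hb : ∃ C, ∀ ω, |Z ω| ≤ C) {V : ℝ} (hV : 0 < V) (h1 : ∫ ω, Z ω ∂μ = 0)
    (h2 : ∫ ω, Z ω ^ 2 ∂μ = V) (h4 : ∫ ω, Z ω ^ 4 ∂μ ≤ 4 * V ^ 2) :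
    1 / 28 ≤ μ.real {ω | √V / 10 ≤ Z ω} := by
  obtain ⟨C, hC⟩ := hb
  have hint : ∀ k : ℕ, Integrable (fun ω => Z ω ^ k) μ := by
    intro k
    refine Integrable.of_bound (hm.pow_const k).aestronglyMeasurable (C ^ k) (ae_of_all _ fun ω => ?_)
    rw [Real.norm_eq_abs, abs_pow]
    exact pow_le_pow_left₀ (abs_nonneg _) (hC ω) k
  set s : ℝ := √V with hs
  have hs0 : 0 < s := Real.sqrt_pos.2 hV
  have hss : s ^ 2 = V := Real.sq_sqrt hV.le
  set S : Set Ω := {ω | s / 10 ≤ Z ω} with hS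
  have hSm : MeasurableSet S := measurableSet_le measurable_const hm
  have hpt : ∀ ω, 2 / s * Z ω + 1 / V * Z ω ^ 2 - 1 / (8 * V ^ 2) * Z ω ^ 4 ≤
      1 / 4 + 7 * S.indicator (fun _ => (1 : ℝ)) ω := by
    intro ω
    have e : 2 / s * Z ω + 1 / V * Z ω ^ 2 - 1 / (8 * V ^ 2) * Z ω ^ 4 =
        2 * (Z ω / s) + (Z ω / s) ^ 2 - (Z ω / s) ^ 4 / 8 := by
      have h5 : (Z ω / s) ^ 4 = Z ω ^ 4 / V ^ 2 := by
        rw [div_pow, ← hss]; ring
      rw [h5, div_pow, hss]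
      ring
    rw [e]
    by_cases h : ω ∈ S
    · rw [Set.indicator_of_mem h]
      have := poly_le (t := Z ω / s)
      linarith
    · rw [Set.indicator_of_notMem h]
      have h6 : Z ω / s ≤ 1 / 10 := by
        rw [div_le_iff₀ hs0]
        have : ¬ (s / 10 ≤ Z ω) := h
        linarith
      have := poly_le' h6
      linarith
  have i1 : Integrable (fun ω => 2 / s * Z ω) μ := by
    have := (hint 1).const_mul (2 / s)
    simpa using this
  have i2 : Integrable (fun ω => 1 / V * Z ω ^ 2) μ := (hint 2).const_mul _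
  have i4 : Integrable (fun ω => 1 / (8 * V ^ 2) * Z ω ^ 4) μ := (hint 4).const_mul _
  have i5 : Integrable (fun ω => 7 * S.indicator (fun _ => (1 : ℝ)) ω) μ :=
    ((integrable_const (1 : ℝ)).indicator hSm).const_mul _
  have i12 : Integrable (fun ω => 2 / s * Z ω + 1 / V * Z ω ^ 2) μ := i1.add i2
  have i124 : Integrable (fun ω => 2 / s * Z ω + 1 / V * Z ω ^ 2 - 1 / (8 * V ^ 2) * Z ω ^ 4) μ :=
    i12.sub i4
  have i05 : Integrable (fun ω => 1 / 4 + 7 * S.indicator (fun _ => (1 : ℝ)) ω) μ :=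
    (integrable_const (1 / 4 : ℝ)).add i5
  have h7 := integral_mono i124 i05 hpt
  have e1 : ∫ ω, (2 / s * Z ω + 1 / V * Z ω ^ 2 - 1 / (8 * V ^ 2) * Z ω ^ 4) ∂μ =
      2 / s * 0 + 1 / V * V - 1 / (8 * V ^ 2) * ∫ ω, Z ω ^ 4 ∂μ := by
    rw [integral_sub i12 i4, integral_add i1 i2, integral_const_mul, integral_const_mul,
      integral_const_mul, h1, h2]
  have e2 : ∫ ω, (1 / 4 + 7 * S.indicator (fun _ => (1 : ℝ)) ω) ∂μ =
      1 / 4 + 7 * μ.real S := by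
    rw [integral_add (integrable_const _) i5, integral_const_mul, integral_indicator_const _ hSm]
    simp
  rw [e1, e2] at h7
  have h8 : 1 / (8 * V ^ 2) * ∫ ω, Z ω ^ 4 ∂μ ≤ 1 / 2 := by
    calc 1 / (8 * V ^ 2) * ∫ ω, Z ω ^ 4 ∂μ ≤ 1 / (8 * V ^ 2) * (4 * V ^ 2) :=
          mul_le_mul_of_nonneg_left h4 (by positivity)
      _ = 1 / 2 := by field_simp; norm_num
  have h9 : 1 / V * V = 1 := by field_simp
  rw [h9] at h7
  linarith

/-- the moments of a sum of independent centred variables -/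
theorem moments {Ω : Type*} [MeasurableSpace Ω] {μ : Measure Ω} [IsProbabilityMeasure μ]
    {Z : ℕ → Ω → ℝ} (hm : ∀ n, Measurable (Z n)) (hb : ∀ n, ∃ C, ∀ ω, |Z n ω| ≤ C)
    (hind : iIndepFun Z μ) (h0 : ∀ n, ∫ ω, Z n ω ∂μ = 0) (n : ℕ) :
    ∫ ω, ∑ i ∈ range n, Z i ω ∂μ = 0 ∧
    ∫ ω, (∑ i ∈ range n, Z i ω) ^ 2 ∂μ = ∑ i ∈ range n, ∫ ω, Z i ω ^ 2 ∂μ ∧
    ∫ ω, (∑ i ∈ range n, Z i ω) ^ 4 ∂μ ≤
      3 * (∑ i ∈ range n, ∫ ω, Z i ω ^ 2 ∂μ) ^ 2 + ∑ i ∈ range n, ∫ ω, Z i ω ^ 4 ∂μ := by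
  have hSm : ∀ n, Measurable fun ω => ∑ i ∈ range n, Z i ω := fun n =>
    Finset.measurable_sum _ fun i _ => hm i
  have hSb : ∀ n, ∃ C, ∀ ω, |∑ i ∈ range n, Z i ω| ≤ C := by
    intro n
    choose C hC using hb
    exact ⟨∑ i ∈ range n, C i, fun ω => (abs_sum_le_sum_abs _ _).trans
      (sum_le_sum fun i _ => hC i ω)⟩
  have hint : ∀ {W : Ω → ℝ}, Measurable W → (∃ C, ∀ ω, |W ω| ≤ C) → Integrable W μ := by
    intro W hW hWb
    obtain ⟨C, hC⟩ := hWb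
    exact Integrable.of_bound hW.aestronglyMeasurable C (ae_of_all _ fun ω => by
      rw [Real.norm_eq_abs]; exact hC ω)
  have hintm : ∀ (n j k : ℕ), Integrable (fun ω => (∑ i ∈ range n, Z i ω) ^ j * Z n ω ^ k) μ := by
    intro n j k
    obtain ⟨C, hC⟩ := hSb n
    obtain ⟨D, hD⟩ := hb n
    refine hint (((hSm n).pow_const j).mul ((hm n).pow_const k)) ⟨C ^ j * D ^ k, fun ω => ?_⟩
    rw [abs_mul, abs_pow, abs_pow]
    have hC0 : 0 ≤ C := (abs_nonneg _).trans (hC ω)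
    exact mul_le_mul (pow_le_pow_left₀ (abs_nonneg _) (hC ω) j)
      (pow_le_pow_left₀ (abs_nonneg _) (hD ω) k) (by positivity) (by positivity)
  have hmul : ∀ (n j k : ℕ), ∫ ω, (∑ i ∈ range n, Z i ω) ^ j * Z n ω ^ k ∂μ =
      (∫ ω, (∑ i ∈ range n, Z i ω) ^ j ∂μ) * ∫ ω, Z n ω ^ k ∂μ := by
    intro n j k
    have h1 : IndepFun (∑ i ∈ range n, Z i) (Z n) μ :=
      hind.indepFun_finsetSum_of_notMem hm (by simp)
    have h2 : IndepFun (fun ω => (∑ i ∈ range n, Z i ω) ^ j) (fun ω => Z n ω ^ k) μ := by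
      have h3 := h1.comp (φ := fun x : ℝ => x ^ j) (ψ := fun x : ℝ => x ^ k)
        (measurable_id.pow_const j) (measurable_id.pow_const k)
      have e : (fun x : ℝ => x ^ j) ∘ (∑ i ∈ range n, Z i) = fun ω => (∑ i ∈ range n, Z i ω) ^ j := by
        funext ω
        simp
      rw [e] at h3
      exact h3
    exact h2.integral_fun_mul_eq_mul_integral ((hSm n).pow_const j).aestronglyMeasurable
      ((hm n).pow_const k).aestronglyMeasurable
  have hpow : ∀ (n k : ℕ), Integrable (fun ω => Z n ω ^ k) μ := by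
    intro n k
    have := hintm n 0 k
    simpa using this
  have hSpow : ∀ (n k : ℕ), Integrable (fun ω => (∑ i ∈ range n, Z i ω) ^ k) μ := by
    intro n k
    have := hintm n k 0
    simpa using this
  induction n with
  | zero => simp
  | succ n ih =>
    obtain ⟨i1, i2, i4⟩ := ih
    have h1 : ∀ k, ∫ ω, (∑ i ∈ range n, Z i ω) ^ k * Z n ω ^ 1 ∂μ = 0 := by
      intro k
      rw [hmul n k 1]
      simp only [pow_one]
      rw [h0 n, mul_zero]
    have h1' : ∀ k, ∫ ω, (∑ i ∈ range n, Z i ω) ^ 1 * Z n ω ^ k ∂μ = 0 := by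
      intro k
      rw [hmul n 1 k]
      simp only [pow_one]
      rw [i1, zero_mul]
    refine ⟨?_, ?_, ?_⟩
    · simp only [sum_range_succ]
      have e := integral_add (μ := μ) (f := fun ω => ∑ i ∈ range n, Z i ω) (g := fun ω => Z n ω)
        (by simpa using hSpow n 1) (by simpa using hpow n 1)
      rw [e, i1, h0 n, add_zero]
    · rw [sum_range_succ, ← i2]
      have e : ∀ ω, (∑ i ∈ range (n + 1), Z i ω) ^ 2 = (∑ i ∈ range n, Z i ω) ^ 2 +
          2 * ((∑ i ∈ range n, Z i ω) ^ 1 * Z n ω ^ 1) + Z n ω ^ 2 := by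
        intro ω
        rw [sum_range_succ]
        ring
      simp only [e]
      have j1 : Integrable (fun ω => 2 * ((∑ i ∈ range n, Z i ω) ^ 1 * Z n ω ^ 1)) μ :=
        (hintm n 1 1).const_mul 2
      have j2 : Integrable (fun ω => (∑ i ∈ range n, Z i ω) ^ 2 +
          2 * ((∑ i ∈ range n, Z i ω) ^ 1 * Z n ω ^ 1)) μ := (hSpow n 2).add j1
      rw [integral_add j2 (hpow n 2), integral_add (hSpow n 2) j1, integral_const_mul, h1 1]
      ring
    · rw [sum_range_succ, sum_range_succ (fun i => ∫ ω, Z i ω ^ 4 ∂μ)]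
      have e : ∀ ω, (∑ i ∈ range (n + 1), Z i ω) ^ 4 = (∑ i ∈ range n, Z i ω) ^ 4 +
          4 * ((∑ i ∈ range n, Z i ω) ^ 3 * Z n ω ^ 1) +
          6 * ((∑ i ∈ range n, Z i ω) ^ 2 * Z n ω ^ 2) +
          4 * ((∑ i ∈ range n, Z i ω) ^ 1 * Z n ω ^ 3) + Z n ω ^ 4 := by
        intro ω
        rw [sum_range_succ]
        ring
      simp only [e]
      have j3 : Integrable (fun ω => 4 * ((∑ i ∈ range n, Z i ω) ^ 3 * Z n ω ^ 1)) μ :=
        (hintm n 3 1).const_mul 4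
      have j2 : Integrable (fun ω => 6 * ((∑ i ∈ range n, Z i ω) ^ 2 * Z n ω ^ 2)) μ :=
        (hintm n 2 2).const_mul 6
      have j1 : Integrable (fun ω => 4 * ((∑ i ∈ range n, Z i ω) ^ 1 * Z n ω ^ 3)) μ :=
        (hintm n 1 3).const_mul 4
      have k3 : Integrable (fun ω => (∑ i ∈ range n, Z i ω) ^ 4 +
          4 * ((∑ i ∈ range n, Z i ω) ^ 3 * Z n ω ^ 1)) μ := (hSpow n 4).add j3
      have k2 : Integrable (fun ω => (∑ i ∈ range n, Z i ω) ^ 4 +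
          4 * ((∑ i ∈ range n, Z i ω) ^ 3 * Z n ω ^ 1) +
          6 * ((∑ i ∈ range n, Z i ω) ^ 2 * Z n ω ^ 2)) μ := k3.add j2
      have k1 : Integrable (fun ω => (∑ i ∈ range n, Z i ω) ^ 4 +
          4 * ((∑ i ∈ range n, Z i ω) ^ 3 * Z n ω ^ 1) +
          6 * ((∑ i ∈ range n, Z i ω) ^ 2 * Z n ω ^ 2) +
          4 * ((∑ i ∈ range n, Z i ω) ^ 1 * Z n ω ^ 3)) μ := k2.add j1
      rw [integral_add k1 (hpow n 4), integral_add k2 j1, integral_add k3 j2,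
        integral_add (hSpow n 4) j3, integral_const_mul, integral_const_mul, integral_const_mul,
        h1 3, h1' 3, hmul n 2 2, i2]
      have h5 : 0 ≤ ∫ ω, Z n ω ^ 2 ∂μ := integral_nonneg fun ω => sq_nonneg _
      nlinarith [sq_nonneg (∫ ω, Z n ω ^ 2 ∂μ)]

end Pool.Agent.H564.SP
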