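import Pool.Agent.H564.SP.Win
import Pool.Agent.H564.SP.Lower

/-! Sparse random samples of the primes: size of the noise. -/

set_option autoImplicit false

namespace Pool.Agent.H564.SP

open MeasureTheory Filter Topology Set Classical ProbabilityTheory
open Pool.Agent.H564.BSD
open Pool.Agent.Results.MP_8b7eba_nt.OneSidedRieszMeans (riesz)

variable {δ : ℕ → ℝ} {η : ℝ}

/-- `δ_p = p^{-2η + o(1)}` for the primes. -/
def Dens (δ : ℕ → ℝ) (η : ℝ) : Prop :=
  ∀ ε : ℝ, 0 < ε → ∀ᶠ n : ℕ in atTop, n.Prime →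
    (n : ℝ) ^ (-(2 * η) - ε) ≤ δ n ∧ δ n ≤ (n : ℝ) ^ (-(2 * η) + ε)

theorem Dens.inv_le (h : Dens δ η) (hδ0 : ∀ p, 0 < δ p) (hη : 0 ≤ η) {ε : ℝ} (hε : 0 < ε) :
    ∃ C : ℝ, 0 < C ∧ ∀ n : ℕ, n.Prime → 1 / δ n ≤ C * (n : ℝ) ^ (2 * η + ε) := by
  obtain ⟨N, hN⟩ := eventually_atTop.1 (h ε hε)
  have hs : 0 ≤ ∑ i ∈ Finset.range N, 1 / δ i :=
    Finset.sum_nonneg fun i _ => (one_div_pos.2 (hδ0 i)).le
  refine ⟨1 + ∑ i ∈ Finset.range N, 1 / δ i, by linarith, fun n hn => ?_⟩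
  have hn1 : (1 : ℝ) ≤ n := by exact_mod_cast hn.one_lt.le
  have hp1 : 1 ≤ (n : ℝ) ^ (2 * η + ε) := Real.one_le_rpow hn1 (by linarith)
  rcases lt_or_ge n N with h1 | h1
  · have h2 := Finset.single_le_sum (f := fun i => 1 / δ i)
      (fun i _ => (one_div_pos.2 (hδ0 i)).le) (Finset.mem_range.2 h1)
    have h3 : 1 / δ n ≤ 1 + ∑ i ∈ Finset.range N, 1 / δ i := by
      linarith
    refine h3.trans (le_mul_of_one_le_right (by linarith) hp1)
  · have h2 := (hN n h1 hn).1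
    have h3 : 1 / δ n ≤ (n : ℝ) ^ (2 * η + ε) := by
      rw [div_le_iff₀ (hδ0 n)]
      calc (1 : ℝ) = (n : ℝ) ^ (2 * η + ε) * (n : ℝ) ^ (-(2 * η) - ε) := by
            rw [← Real.rpow_add (by linarith)]
            rw [show 2 * η + ε + (-(2 * η) - ε) = 0 by ring, Real.rpow_zero]
        _ ≤ (n : ℝ) ^ (2 * η + ε) * δ n := mul_le_mul_of_nonneg_left h2 (by linarith)
    refine h3.trans (le_mul_of_one_le_left (by linarith) (by linarith))

theorem Dens.le (h : Dens δ η) (hδ1 : ∀ p, δ p ≤ 1) (hη : 0 ≤ η) {ε : ℝ} (hε : 0 < ε) :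
    ∃ C : ℝ, 0 < C ∧ ∀ n : ℕ, n.Prime → δ n ≤ C * (n : ℝ) ^ (-(2 * η) + ε) := by
  obtain ⟨N, hN⟩ := eventually_atTop.1 (h ε hε)
  refine ⟨1 + (N : ℝ) ^ (2 * η), by positivity, fun n hn => ?_⟩
  have hn1 : (1 : ℝ) ≤ n := by exact_mod_cast hn.one_lt.le
  have hn0 : (0 : ℝ) < n := by linarith
  have hp0 : 0 < (n : ℝ) ^ (-(2 * η) + ε) := Real.rpow_pos_of_pos hn0 _
  have hN0 : 0 ≤ (N : ℝ) ^ (2 * η) := by positivity
  rcases lt_or_ge n N with h1 | h1
  · have h3 : (n : ℝ) ^ (2 * η) ≤ (N : ℝ) ^ (2 * η) :=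
      Real.rpow_le_rpow hn0.le (by exact_mod_cast h1.le) (by linarith)
    have h4 : 1 ≤ (n : ℝ) ^ (2 * η) * (n : ℝ) ^ (-(2 * η) + ε) := by
      rw [← Real.rpow_add hn0, show 2 * η + (-(2 * η) + ε) = ε by ring]
      exact Real.one_le_rpow hn1 hε.le
    calc δ n ≤ 1 := hδ1 n
      _ ≤ (n : ℝ) ^ (2 * η) * (n : ℝ) ^ (-(2 * η) + ε) := h4
      _ ≤ (1 + (N : ℝ) ^ (2 * η)) * (n : ℝ) ^ (-(2 * η) + ε) :=
          mul_le_mul_of_nonneg_right (by linarith) hp0.le
  · have h2 := (hN n h1 hn).2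
    exact h2.trans (le_mul_of_one_le_left hp0.le (by linarith))

variable {Ω : Type*} [mΩ : MeasurableSpace Ω] {μ : Measure Ω} [IsProbabilityMeasure μ]
  {A : ℕ → Set Ω}

/-- the partial sums of the noise -/
theorem noise_up (hA : ∀ p, MeasurableSet (A p)) (hind : iIndepSet A μ)
    (hδ0 : ∀ p, 0 < δ p) (hδ1 : ∀ p, δ p ≤ 1) (hμ : ∀ p, μ (A p) = ENNReal.ofReal (δ p))
    (hη : 0 ≤ η) (hd : Dens δ η) :
    ∀ᵐ ω ∂μ, ∀ a b : ℤ, ∀ ε : ℝ, 0 < ε → ∃ C : ℝ, ∀ n : ℕ,
      |∑ i ∈ Finset.range n, (wt A δ ω i - 1) * yy a b i| ≤ C * ((n : ℝ) + 1) ^ (η + ε) := by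
  have key : ∀ (a b : ℤ) (q : ℕ), ∀ᵐ ω ∂μ, ∃ C : ℝ, ∀ n : ℕ,
      |∑ i ∈ Finset.range n, (wt A δ ω i - 1) * yy a b i| ≤
        C * ((n : ℝ) + 1) ^ (η + 1 / ((q : ℝ) + 1)) := by
    intro a b q
    set e : ℝ := 1 / ((q : ℝ) + 1) with he
    have he0 : 0 < e := by positivity
    obtain ⟨C, hC0, hC⟩ := hd.inv_le hδ0 hη he0
    obtain ⟨C₁, hC₁, hy⟩ := yy_bound a b
    have hbmono : Monotone fun n : ℕ => ((n : ℝ) + 1) ^ (η + e) := by
      intro m n hmn
      exact Real.rpow_le_rpow (by positivity) (by have : (m : ℝ) ≤ n := by exact_mod_cast hmn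
                                                  linarith) (by linarith)
    have hb0 : ∀ n : ℕ, 0 < ((n : ℝ) + 1) ^ (η + e) := fun n => by positivity
    have hsum : Summable fun n : ℕ => yy a b n ^ 2 / (δ n * (((n : ℝ) + 1) ^ (η + e)) ^ 2) := by
      have h1 : Summable fun n : ℕ => C₁ ^ 2 * C * (n : ℝ) ^ (-1 - e) :=
        (Real.summable_nat_rpow.2 (by linarith)).mul_left _
      refine Summable.of_nonneg_of_le (fun n => ?_) (fun n => ?_) h1
      · have := hδ0 n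
        positivity
      · by_cases hn : n.Prime
        · have hn0 : (0 : ℝ) < n := by exact_mod_cast hn.pos
          have h3 : yy a b n ^ 2 ≤ C₁ ^ 2 / n := by
            have h4 := pow_le_pow_left₀ (abs_nonneg _) (hy n) 2
            rw [sq_abs, div_pow, Real.sq_sqrt hn0.le] at h4
            exact h4
          have h5 : (((n : ℝ) ^ (η + e)) ^ 2) ≤ (((n : ℝ) + 1) ^ (η + e)) ^ 2 := by
            refine pow_le_pow_left₀ (by positivity) ?_ 2
            exact Real.rpow_le_rpow hn0.le (by linarith) (by linarith)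
          have h6 : 0 < ((n : ℝ) ^ (η + e)) ^ 2 := by positivity
          have h7 := hC n hn
          calc yy a b n ^ 2 / (δ n * (((n : ℝ) + 1) ^ (η + e)) ^ 2)
              = yy a b n ^ 2 * (1 / δ n) / (((n : ℝ) + 1) ^ (η + e)) ^ 2 := by
                have := (hδ0 n).ne'
                field_simp
            _ ≤ (C₁ ^ 2 / n) * (C * (n : ℝ) ^ (2 * η + e)) / ((n : ℝ) ^ (η + e)) ^ 2 := by
                refine div_le_div₀ (by positivity) ?_ h6 h5
                exact mul_le_mul h3 h7 (one_div_pos.2 (hδ0 n)).le (by positivity)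
            _ = C₁ ^ 2 * C * (n : ℝ) ^ (-1 - e) := by
                have e1 : ((n : ℝ) ^ (η + e)) ^ 2 = (n : ℝ) ^ (2 * η + 2 * e) := by
                  rw [← Real.rpow_natCast, ← Real.rpow_mul hn0.le]
                  congr 1
                  push_cast
                  ring
                have e2 : (n : ℝ) ^ (-1 - e) * (n : ℝ) ^ (2 * η + 2 * e) * n =
                    (n : ℝ) ^ (2 * η + e) := by
                  rw [← Real.rpow_add hn0, ← Real.rpow_add_one hn0.ne']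
                  congr 1
                  ring
                rw [e1, div_eq_iff (by positivity), ← e2]
                field_simp
        · rw [yy_zero_of_not_prime hn]
          simp only [ne_eq, OfNat.ofNat_ne_zero, not_false_eq_true, zero_pow, zero_div]
          positivity
    filter_upwards [noise hA hind hδ0 hδ1 hμ hbmono hb0 hsum] with ω hω
    obtain ⟨C', hC'⟩ := hω 1 one_pos
    refine ⟨1 + |C'|, fun n => (hC' n).trans ?_⟩
    have h8 : 1 ≤ ((n : ℝ) + 1) ^ (η + e) := Real.one_le_rpow (by linarith [Nat.cast_nonneg (α := ℝ) n])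
      (by linarith)
    have h9 : C' ≤ |C'| * ((n : ℝ) + 1) ^ (η + e) :=
      (le_abs_self C').trans (le_mul_of_one_le_right (abs_nonneg _) h8)
    linarith
  have key2 : ∀ᵐ ω ∂μ, ∀ (a b : ℤ) (q : ℕ), ∃ C : ℝ, ∀ n : ℕ,
      |∑ i ∈ Finset.range n, (wt A δ ω i - 1) * yy a b i| ≤
        C * ((n : ℝ) + 1) ^ (η + 1 / ((q : ℝ) + 1)) := by
    rw [ae_all_iff]; intro a
    rw [ae_all_iff]; intro b
    rw [ae_all_iff]; intro q
    exact key a b q
  filter_upwards [key2] with ω hω a b ε hε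
  obtain ⟨q, hq⟩ := exists_nat_one_div_lt hε
  obtain ⟨C, hC⟩ := hω a b q
  refine ⟨|C|, fun n => (hC n).trans ?_⟩
  have h1 : ((n : ℝ) + 1) ^ (η + 1 / ((q : ℝ) + 1)) ≤ ((n : ℝ) + 1) ^ (η + ε) :=
    Real.rpow_le_rpow_of_exponent_le (by linarith [Nat.cast_nonneg (α := ℝ) n]) (by linarith)
  exact mul_le_mul (le_abs_self C) h1 (by positivity) (abs_nonneg _)

/-- few primes are used -/
theorem count_up (hA : ∀ p, MeasurableSet (A p)) (hind : iIndepSet A μ)
    (hδ0 : ∀ p, 0 < δ p) (hδ1 : ∀ p, δ p ≤ 1) (hμ : ∀ p, μ (A p) = ENNReal.ofReal (δ p))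
    (hη : 0 ≤ η) (hη1 : η < 1 / 2) (hd : Dens δ η) :
    ∀ᵐ ω ∂μ, ∀ ε : ℝ, 0 < ε → ∀ᶠ x : ℝ in atTop,
      (((Finset.range (⌊x⌋₊ + 1)).filter fun p => p.Prime ∧ ω ∈ A p).card : ℝ) ≤
        x ^ (1 - 2 * η + ε) := by
  have key : ∀ q : ℕ, ∀ᵐ ω ∂μ, ∃ C : ℝ, ∀ x : ℝ, 1 ≤ x →
      (((Finset.range (⌊x⌋₊ + 1)).filter fun p => p.Prime ∧ ω ∈ A p).card : ℝ) ≤
        C * x ^ (1 - 2 * η + 1 / ((q : ℝ) + 1)) := by
    intro q
    set e : ℝ := 1 / ((q : ℝ) + 1) with he
    have he0 : 0 < e := by positivity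
    set s : ℝ := 1 - 2 * η + e with hs
    have hs0 : 0 < s := by linarith
    obtain ⟨C, hC0, hC⟩ := hd.le hδ1 hη (half_pos he0)
    set y : ℕ → ℝ := fun n => if n.Prime then δ n * (n : ℝ) ^ (-s) else 0 with hy
    have hbd : ∀ n : ℕ, n.Prime → δ n * (n : ℝ) ^ (-s) ≤ C * (n : ℝ) ^ (-1 - e / 2) := by
      intro n hn
      have hn0 : (0 : ℝ) < n := by exact_mod_cast hn.pos
      calc δ n * (n : ℝ) ^ (-s) ≤ C * (n : ℝ) ^ (-(2 * η) + e / 2) * (n : ℝ) ^ (-s) :=
            mul_le_mul_of_nonneg_right (hC n hn) (by positivity)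
        _ = C * (n : ℝ) ^ (-1 - e / 2) := by
            rw [mul_assoc, ← Real.rpow_add hn0]
            congr 2
            rw [hs]
            ring
    have hsum1 : Summable y := by
      refine Summable.of_nonneg_of_le (fun n => ?_) (fun n => ?_)
        ((Real.summable_nat_rpow.2 (show -1 - e / 2 < -1 by linarith)).mul_left C)
      · simp only [hy]
        have := hδ0 n
        split_ifs <;> positivity
      · simp only [hy]
        split_ifs with hn
        · exact hbd n hn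
        · positivity
    have hsum2 : Summable fun n : ℕ => y n ^ 2 / (δ n * (1 : ℝ) ^ 2) := by
      refine Summable.of_nonneg_of_le (fun n => ?_) (fun n => ?_) hsum1
      · have := hδ0 n
        positivity
      · simp only [hy]
        split_ifs with hn
        · have h1 : (1 : ℝ) ≤ n := by exact_mod_cast hn.one_lt.le
          have h2 : (n : ℝ) ^ (-s) ≤ 1 := Real.rpow_le_one_of_one_le_of_nonpos h1 (by linarith)
          have h3 : 0 ≤ (n : ℝ) ^ (-s) := by positivity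
          have h4 := hδ0 n
          have e1 : (δ n * (n : ℝ) ^ (-s)) ^ 2 / (δ n * 1 ^ 2) =
              δ n * (n : ℝ) ^ (-s) * (n : ℝ) ^ (-s) := by
            field_simp
          rw [e1]
          exact mul_le_of_le_one_right (by positivity) h2
        · simp
    filter_upwards [noise hA hind hδ0 hδ1 hμ (b := fun _ => 1) monotone_const (fun _ => one_pos)
      hsum2] with ω hω
    obtain ⟨C', hC'⟩ := hω 1 one_pos
    refine ⟨(∑' n, y n) + 1 + C', fun x hx => ?_⟩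
    have hx0 : 0 < x := by linarith
    have h1 := (abs_le.1 (hC' (⌊x⌋₊ + 1))).2
    have h2 : ∑ i ∈ Finset.range (⌊x⌋₊ + 1), y i ≤ ∑' n, y n :=
      hsum1.sum_le_tsum _ fun i _ => by
        simp only [hy]
        have := hδ0 i
        split_ifs <;> positivity
    have h3 : ∑ i ∈ Finset.range (⌊x⌋₊ + 1), wt A δ ω i * y i ≤ (∑' n, y n) + 1 + C' := by
      have e1 : ∑ i ∈ Finset.range (⌊x⌋₊ + 1), wt A δ ω i * y i =
          ∑ i ∈ Finset.range (⌊x⌋₊ + 1), (wt A δ ω i - 1) * y i +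
            ∑ i ∈ Finset.range (⌊x⌋₊ + 1), y i := by
        rw [← Finset.sum_add_distrib]
        exact Finset.sum_congr rfl fun i _ => by ring
      rw [e1]
      linarith
    have h4 : (((Finset.range (⌊x⌋₊ + 1)).filter fun p => p.Prime ∧ ω ∈ A p).card : ℝ) =
        ∑ i ∈ Finset.range (⌊x⌋₊ + 1), (if i.Prime ∧ ω ∈ A i then 1 else 0 : ℝ) := by
      rw [Finset.sum_boole]
    rw [h4]
    have h5 : ∑ i ∈ Finset.range (⌊x⌋₊ + 1), (if i.Prime ∧ ω ∈ A i then 1 else 0 : ℝ) ≤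
        (∑ i ∈ Finset.range (⌊x⌋₊ + 1), wt A δ ω i * y i) * x ^ s := by
      rw [Finset.sum_mul]
      refine Finset.sum_le_sum fun i hi => ?_
      rw [Finset.mem_range] at hi
      unfold wt
      simp only [hy]
      by_cases h6 : i.Prime ∧ ω ∈ A i
      · rw [if_pos h6, if_pos h6.2, if_pos h6.1]
        have hi0 : (0 : ℝ) < i := by exact_mod_cast h6.1.pos
        have hix : (i : ℝ) ≤ x := (Nat.cast_le.2 (Nat.lt_succ_iff.1 hi)).trans (Nat.floor_le hx0.le)
        have h7 : (i : ℝ) ^ s ≤ x ^ s := Real.rpow_le_rpow hi0.le hix hs0.le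
        have e1 : 1 / δ i * (δ i * (i : ℝ) ^ (-s)) * x ^ s = (i : ℝ) ^ (-s) * x ^ s := by
          have := (hδ0 i).ne'
          field_simp
        rw [e1]
        calc (1 : ℝ) = (i : ℝ) ^ (-s) * (i : ℝ) ^ s := by
              rw [← Real.rpow_add hi0, neg_add_cancel, Real.rpow_zero]
          _ ≤ _ := mul_le_mul_of_nonneg_left h7 (by positivity)
      · rw [if_neg h6]
        have := hδ0 i
        split_ifs <;> positivity
    exact h5.trans (mul_le_mul_of_nonneg_right h3 (by positivity))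
  have key2 : ∀ᵐ ω ∂μ, ∀ q : ℕ, ∃ C : ℝ, ∀ x : ℝ, 1 ≤ x →
      (((Finset.range (⌊x⌋₊ + 1)).filter fun p => p.Prime ∧ ω ∈ A p).card : ℝ) ≤
        C * x ^ (1 - 2 * η + 1 / ((q : ℝ) + 1)) := by
    rw [ae_all_iff]; intro q
    exact key q
  filter_upwards [key2] with ω hω ε hε
  obtain ⟨q, hq⟩ := exists_nat_one_div_lt hε
  obtain ⟨C, hC⟩ := hω q
  set e : ℝ := 1 / ((q : ℝ) + 1) with he
  filter_upwards [eventually_ge_atTop 1,
    (tendsto_rpow_atTop (show 0 < ε - e by linarith)).eventually_ge_atTop C] with x hx h1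
  refine (hC x hx).trans ?_
  calc C * x ^ (1 - 2 * η + e) ≤ x ^ (ε - e) * x ^ (1 - 2 * η + e) :=
        mul_le_mul_of_nonneg_right h1 (by positivity)
    _ = x ^ (1 - 2 * η + ε) := by
        rw [← Real.rpow_add (by linarith)]
        congr 1
        ring

end Pool.Agent.H564.SP
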