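import Pool.Agent.H564.BSD.Mass
import Pool.Graph.R_seed8.TH941.Newform

/-! The theorem of Rankin and Selberg for the primes in the windows `(x^θ, x]`, `θ < 1`. -/

set_option autoImplicit false

namespace Pool.Agent.H564.SP

open MeasureTheory Filter Topology Set CongruenceSubgroup Classical
open scoped MatrixGroups
open Pool.Agent.W263.BSD (stp stp_meas stp_LInt stp_hasSum stp_abs lap_sub lap LInt prime_inc
  tauber_limit GoodPrime pointCount good_of_large stp_mem)
open Pool.Agent.TH941 (PS Hecke cr gg Belongs)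
open Pool.Agent.H564.BSD

theorem lap_scale {f : ℝ → ℝ} {w θ : ℝ} (hθ : 0 < θ) :
    w * lap (fun u => f (θ * u)) w = (w / θ) * lap f (w / θ) := by
  have h1 := integral_comp_mul_left_Ioi (fun u : ℝ => f u * Real.exp (-(w / θ * u))) 0 hθ
  rw [mul_zero] at h1
  have h2 : lap (fun u => f (θ * u)) w =
      ∫ x in Ioi (0 : ℝ), f (θ * x) * Real.exp (-(w / θ * (θ * x))) := by
    unfold lap
    refine setIntegral_congr_fun measurableSet_Ioi fun t _ => ?_
    simp only []
    congr 2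
    field_simp
  rw [h2, h1]
  unfold lap
  rw [smul_eq_mul]
  field_simp

theorem LInt_scale {f : ℝ → ℝ} {w θ : ℝ} (hθ : 0 < θ) (h : LInt f (w / θ)) :
    LInt (fun u => f (θ * u)) w := by
  unfold LInt at *
  have h1 := (integrableOn_Ioi_comp_mul_left_iff
    (fun u : ℝ => f u * Real.exp (-(w / θ * u))) 0 hθ).mpr (by rw [mul_zero]; exact h)
  refine h1.congr_fun (fun t _ => ?_) measurableSet_Ioi
  simp only []
  congr 2
  field_simp

section

variable {c : ℕ → ℝ} {B : ℝ}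

/-- `s(u) - s(θ u)` -/
noncomputable def sf (c : ℕ → ℝ) (θ u : ℝ) : ℝ := stp c u - stp c (θ * u)

theorem sf_meas (θ : ℝ) : Measurable (sf c θ) :=
  (stp_meas _).sub ((stp_meas _).comp (measurable_id.const_mul θ))

theorem sf_LInt (hc : PS c B) {θ w : ℝ} (hθ : 0 < θ) (hw : 0 < w) : LInt (sf c θ) w :=
  (stp_LInt hc.zero (fun _ h => hc.summable h) hw).sub
    (LInt_scale hθ (stp_LInt hc.zero (fun _ h => hc.summable h) (by positivity)))

theorem sf_bounded (hc : PS c B) {θ : ℝ} (hθ : 0 < θ) (hθ1 : θ < 1) :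
    ∃ M : ℝ, ∀ u, 0 < u → |sf c θ u| ≤ M := by
  obtain ⟨u0, h2, h⟩ := hc.slow1 one_pos
  set K : ℝ := ∑' n : ℕ, |c n| * (n : ℝ) ^ (-(1 : ℝ)) with hK
  have hK0 : 0 ≤ K := tsum_nonneg fun n => by positivity
  have hb : ∀ u : ℝ, |stp c u| ≤ K * Real.exp (1 * u) := fun u =>
    stp_abs hc.zero (hc.summable one_pos) zero_le_one u
  have hθi : 1 ≤ 1 / θ := by rw [le_div_iff₀ hθ]; linarith
  refine ⟨(B * Real.log (1 / θ) + 1) + 2 * (K * Real.exp (u0 / θ)), fun u hu => ?_⟩
  have hlog : 0 ≤ B * Real.log (1 / θ) := mul_nonneg hc.pos.le (Real.log_nonneg hθi)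
  have hE := Real.exp_pos (u0 / θ)
  have hKE : 0 ≤ K * Real.exp (u0 / θ) := by positivity
  have hθu : θ * u ≤ u := by nlinarith
  rcases le_or_gt (u0 / θ) u with h3 | h3
  · rw [div_le_iff₀ hθ] at h3
    have h4 := h (θ * u) u (by linarith) hθu
    have h5 : u / (θ * u) = 1 / θ := by field_simp
    rw [h5] at h4
    unfold sf
    linarith
  · have h4 := hb u
    have h5 := hb (θ * u)
    have h6 : Real.exp (1 * u) ≤ Real.exp (u0 / θ) := Real.exp_le_exp.mpr (by linarith)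
    have h7 : Real.exp (1 * (θ * u)) ≤ Real.exp (u0 / θ) := Real.exp_le_exp.mpr (by linarith)
    have h8 := mul_le_mul_of_nonneg_left h6 hK0
    have h9 := mul_le_mul_of_nonneg_left h7 hK0
    unfold sf
    refine (abs_sub _ _).trans ?_
    linarith

theorem sf_slow (hc : PS c B) {θ : ℝ} (hθ : 0 < θ) (hθ1 : θ < 1) {ε : ℝ} (hε : 0 < ε) :
    ∃ δ > 0, ∃ u0 : ℝ, ∀ u v : ℝ, u0 ≤ u → u ≤ v → v ≤ (1 + δ) * u →
      sf c θ v ≤ sf c θ u + ε := by
  obtain ⟨u0, h2, h⟩ := hc.slow1 (show 0 < ε / 4 by positivity)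
  have hB := hc.pos
  refine ⟨ε / (4 * B), by positivity, u0 / θ, fun u v h3 h4 h5 => ?_⟩
  rw [div_le_iff₀ hθ] at h3
  have hu : 0 < u := by
    by_contra hcon
    push Not at hcon
    nlinarith
  have h6 := h u v (by nlinarith) h4
  have h7 := h (θ * u) (θ * v) (by linarith) (mul_le_mul_of_nonneg_left h4 hθ.le)
  have h8 : θ * v / (θ * u) = v / u := by field_simp
  rw [h8] at h7
  have h9 : B * Real.log (v / u) ≤ ε / 4 := by
    have e1 : v / u ≤ 1 + ε / (4 * B) := by rw [div_le_iff₀ hu]; exact h5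
    have e2 : 0 < v / u := div_pos (by linarith) hu
    have e3 := Real.log_le_sub_one_of_pos e2
    have e4 : Real.log (v / u) ≤ ε / (4 * B) := by linarith
    refine (mul_le_mul_of_nonneg_left e4 hB.le).trans (le_of_eq ?_)
    field_simp
  have h10 : sf c θ v - sf c θ u = (stp c v - stp c u) - (stp c (θ * v) - stp c (θ * u)) := by
    unfold sf; ring
  have h11 := abs_le.mp h6
  have h12 := abs_le.mp h7
  linarith

/-- **The increments over `(x^θ, x]` tend to zero.** -/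
theorem sf_tendsto (hc : PS c B) {θ : ℝ} (hθ : 0 < θ) (hθ1 : θ < 1) {C0 : ℝ}
    (h : Tendsto (fun w : ℝ => ∑' n : ℕ, c n * (n : ℝ) ^ (-w)) (𝓝[>] 0) (𝓝 C0)) :
    Tendsto (sf c θ) atTop (𝓝 0) := by
  obtain ⟨M, hM⟩ := sf_bounded hc hθ hθ1
  refine tauber_limit (sf_meas θ) (fun w hw => sf_LInt hc hθ hw) hM ?_
    fun ε hε => sf_slow hc hθ hθ1 hε
  have h2 : Tendsto (fun w : ℝ => w / θ) (𝓝[>] 0) (𝓝[>] 0) := by
    rw [tendsto_nhdsWithin_iff]
    constructor
    · have : Continuous fun w : ℝ => w / θ := by fun_prop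
      have := this.tendsto 0
      rw [zero_div] at this
      exact this.mono_left nhdsWithin_le_nhds
    · filter_upwards [self_mem_nhdsWithin] with w hw
      have hw0 : (0 : ℝ) < w := hw
      show (0 : ℝ) < w / θ
      positivity
  have h3 := h.sub (h.comp h2)
  rw [sub_self] at h3
  refine h3.congr' ?_
  filter_upwards [self_mem_nhdsWithin] with w hw
  have hw0 : (0 : ℝ) < w := hw
  have hwθ : 0 < w / θ := by positivity
  have i1 : LInt (stp c) w := stp_LInt hc.zero (fun _ h => hc.summable h) hw0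
  have i2 : LInt (stp c) (w / θ) := stp_LInt hc.zero (fun _ h => hc.summable h) hwθ
  have e1 := (stp_hasSum hc.zero (fun _ h => hc.summable h) hw0).tsum_eq
  have e2 := (stp_hasSum hc.zero (fun _ h => hc.summable h) hwθ).tsum_eq
  have e3 : lap (sf c θ) w = lap (stp c) w - lap (fun u => stp c (θ * u)) w :=
    lap_sub i1 (LInt_scale hθ i2)
  simp only [Function.comp_apply]
  rw [e1, e2, e3, mul_sub, lap_scale hθ]

end

/-- lower bound for the primes in a window -/
theorem prime_win {θ : ℝ} (hθ : 0 < θ) (hθ1 : θ < 1) : ∃ κ : ℝ, 0 < κ ∧ ∀ᶠ u : ℝ in atTop,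
    κ ≤ ∑ p ∈ (Finset.Ioc ⌊Real.exp (θ * u)⌋₊ ⌊Real.exp u⌋₊).filter Nat.Prime, (1 : ℝ) / p := by
  obtain ⟨C, hC0, hC⟩ := Pool.Agent.Helper923.HMertens.mertens_ratio
  have hfl : ∀ v : ℝ, 2 ≤ v → v - 1 ≤ Real.log ⌊Real.exp v⌋₊ ∧ Real.log ⌊Real.exp v⌋₊ ≤ v ∧
      2 ≤ ⌊Real.exp v⌋₊ := by
    intro v hv
    have hexp2 : 4 ≤ Real.exp v := by
      have e1 := Real.exp_one_gt_d9
      have e2 : Real.exp 2 ≤ Real.exp v := Real.exp_le_exp.mpr hv
      have e3 : Real.exp 2 = Real.exp 1 * Real.exp 1 := by rw [← Real.exp_add]; norm_num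
      nlinarith
    have ha1 : Real.exp v / 2 ≤ ⌊Real.exp v⌋₊ := by
      have := Nat.sub_one_lt_floor (Real.exp v)
      linarith
    have ha2 : 2 ≤ ⌊Real.exp v⌋₊ := by
      have : (2 : ℝ) ≤ ⌊Real.exp v⌋₊ := by linarith
      exact_mod_cast this
    have ha0 : (0 : ℝ) < ⌊Real.exp v⌋₊ := by
      have : (2 : ℝ) ≤ ⌊Real.exp v⌋₊ := by exact_mod_cast ha2
      linarith
    refine ⟨?_, ?_, ha2⟩
    · have e1 : Real.log (Real.exp v / 2) ≤ Real.log ⌊Real.exp v⌋₊ :=
        Real.log_le_log (by positivity) ha1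
      rw [Real.log_div (Real.exp_pos _).ne' (by norm_num), Real.log_exp] at e1
      have := Real.log_two_lt_d9
      linarith
    · rw [Real.log_le_iff_le_exp ha0]
      exact Nat.floor_le (Real.exp_pos _).le
  -- `(u - 1) / (θ u) ≥ (1 + 1/θ)/2 > 1`
  set ρ : ℝ := (1 + 1 / θ) / 2 with hρ
  have hθi : 1 < 1 / θ := by rw [lt_div_iff₀ hθ]; linarith
  have hρ1 : 1 < ρ := by rw [hρ]; linarith
  have hρ2 : ρ < 1 / θ := by rw [hρ]; linarith
  have hlρ : 0 < Real.log ρ := Real.log_pos hρ1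
  refine ⟨Real.log ρ / 2, by positivity, ?_⟩
  have ht : Tendsto (fun u : ℝ => θ * u) atTop atTop := tendsto_id.const_mul_atTop hθ
  have hρθ : 0 < 1 - ρ * θ := by
    have := mul_lt_mul_of_pos_right hρ2 hθ
    rw [one_div, inv_mul_cancel₀ hθ.ne'] at this
    linarith
  filter_upwards [ht.eventually_ge_atTop 2, eventually_ge_atTop (1 / (1 - ρ * θ)),
    eventually_ge_atTop 2, ht.eventually_ge_atTop (2 * C / Real.log ρ + 1)] with u h1 h2 h3 h4
  obtain ⟨e1, e2, e5⟩ := hfl (θ * u) h1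
  obtain ⟨e3, e4, e6⟩ := hfl u h3
  have hle : ⌊Real.exp (θ * u)⌋₊ ≤ ⌊Real.exp u⌋₊ :=
    Nat.floor_le_floor (Real.exp_le_exp.mpr (by nlinarith))
  have h5 := abs_le.1 (hC _ _ e5 hle)
  have hpos : 0 < Real.log ⌊Real.exp (θ * u)⌋₊ := by linarith
  have h6 : ρ ≤ Real.log ⌊Real.exp u⌋₊ / Real.log ⌊Real.exp (θ * u)⌋₊ := by
    rw [le_div_iff₀ hpos]
    have h7 : ρ * Real.log ⌊Real.exp (θ * u)⌋₊ ≤ ρ * (θ * u) :=
      mul_le_mul_of_nonneg_left e2 (by linarith)
    have h8 : ρ * (θ * u) ≤ u - 1 := by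
      rw [div_le_iff₀ hρθ] at h2
      linarith
    linarith
  have h7 : Real.log ρ ≤ Real.log (Real.log ⌊Real.exp u⌋₊ / Real.log ⌊Real.exp (θ * u)⌋₊) :=
    Real.log_le_log (by linarith) h6
  have h8 : C / Real.log ⌊Real.exp (θ * u)⌋₊ ≤ Real.log ρ / 2 := by
    rw [div_le_iff₀ hpos]
    have h9 : 2 * C / Real.log ρ ≤ Real.log ⌊Real.exp (θ * u)⌋₊ := by linarith
    rw [div_le_iff₀ hlρ] at h9
    linarith
  linarith [h5.1]

/-- **The mean square of the local terms in the windows `(x^θ, x]`.** -/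
theorem sq_win {N : ℕ} [NeZero N] {f : CuspForm (Gamma0 N : Subgroup (GL (Fin 2) ℝ)) 2}
    (hf : Hecke f) {a b : ℤ} (hΔ : 4 * a ^ 3 + 27 * b ^ 2 ≠ 0) (hb : Belongs a b f)
    {θ : ℝ} (hθ : 0 < θ) (hθ1 : θ < 1) :
    ∃ κ : ℝ, 0 < κ ∧ ∀ᶠ u : ℝ in atTop, κ ≤ SW (fun i => yy a b i ^ 2) (θ * u) u := by
  obtain ⟨C0, hC0⟩ := hf.cr_limit
  have hsf := sf_tendsto hf.ps hθ hθ1 hC0
  obtain ⟨κ, hκ, hwin⟩ := prime_win hθ hθ1
  obtain ⟨D, hD⟩ := good_of_large hΔ
  refine ⟨κ / 4, by positivity, ?_⟩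
  have ht : Tendsto (fun u : ℝ => θ * u) atTop atTop := tendsto_id.const_mul_atTop hθ
  have hexp : Tendsto (fun u : ℝ => Real.exp (θ * u)) atTop atTop := Real.tendsto_exp_atTop.comp ht
  filter_upwards [hwin, hsf.eventually (lt_mem_nhds (show -(κ / 4) < 0 by linarith)),
    hexp.eventually_ge_atTop (D + 36 * 361 + 1 : ℝ), eventually_ge_atTop 0] with u h1 h2 h3 h0
  have hle : θ * u ≤ u := by nlinarith
  -- the sums of `1/p` and of `cr`
  have hgood : ∀ i : ℕ, Real.exp (θ * u) < i → i.Prime → GoodPrime a b i := by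
    intro i hi hp
    refine hD i hp ?_
    have : (D : ℝ) < i := by linarith [Nat.cast_nonneg (α := ℝ) D]
    exact_mod_cast this
  have e1 : SW (fone a b) (θ * u) u =
      ∑ p ∈ (Finset.Ioc ⌊Real.exp (θ * u)⌋₊ ⌊Real.exp u⌋₊).filter Nat.Prime, (1 : ℝ) / p := by
    unfold SW
    rw [Finset.sum_filter, ← Finset.sum_filter (fun i : ℕ => Real.exp (θ * u) < i)]
    have hset : (Finset.range (⌊Real.exp u⌋₊ + 1)).filter (fun i : ℕ => Real.exp (θ * u) < i) =
        Finset.Ioc ⌊Real.exp (θ * u)⌋₊ ⌊Real.exp u⌋₊ := by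
      ext i
      simp only [Finset.mem_filter, Finset.mem_range, Finset.mem_Ioc]
      rw [Nat.floor_lt (Real.exp_pos _).le]
      constructor
      · rintro ⟨h4, h5⟩; exact ⟨h5, by omega⟩
      · rintro ⟨h4, h5⟩; exact ⟨by omega, h4⟩
    rw [hset]
    refine Finset.sum_congr rfl fun i hi => ?_
    rw [Finset.mem_Ioc, Nat.floor_lt (Real.exp_pos _).le] at hi
    unfold fone
    by_cases hp : i.Prime
    · rw [if_pos (hgood i hi.1 hp), if_pos hp]
    · rw [if_neg (fun h => hp h.1), if_neg hp]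
  have e2 : SW (fsq a b) (θ * u) u - SW (fone a b) (θ * u) u = sf (cr f) θ u := by
    have e3 : SW (fsq a b) (θ * u) u = SW (fone a b) (θ * u) u + SW (cr f) (θ * u) u := by
      rw [← SW_add_fun]
      refine SW_congr fun i hi _ => ?_
      unfold fsq fone trc cr
      by_cases hp : i.Prime
      · have hg := hgood i hi hp
        rw [if_pos hg, if_pos hg, if_pos hp]
        unfold gg
        rw [hb i hg]
        have h4 : ‖(i : ℂ) - (pointCount a b i : ℂ)‖ ^ 2 = ((i : ℝ) - pointCount a b i) ^ 2 := by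
          have : (i : ℂ) - (pointCount a b i : ℂ) = (((i : ℝ) - pointCount a b i : ℝ) : ℂ) := by
            push_cast; ring
          rw [this, Complex.norm_real, Real.norm_eq_abs, sq_abs]
        rw [h4]
        have hp' : (i : ℝ) ≠ 0 := by exact_mod_cast hp.ne_zero
        field_simp
        ring
      · rw [if_neg (fun h => hp h.1), if_neg (fun h => hp h.1), if_neg hp, add_zero]
    rw [e3, add_sub_cancel_left]
    rw [SW_eq _ hle]
    rfl
  have h5 : SW (fun i => 1 / 2 * fsq a b i + -(1 / 36) * fone a b i) (θ * u) u ≤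
      SW (fun i => yy a b i ^ 2) (θ * u) u := by
    refine SW_mono fun i hi _ => ?_
    by_cases hg : GoodPrime a b i
    · have hi0 : (36 * 361 : ℝ) ≤ i := by linarith [Nat.cast_nonneg (α := ℝ) D]
      have hi36 : 36 ≤ i := by
        have : (36 : ℝ) ≤ i := by linarith
        exact_mod_cast this
      have hip : (0 : ℝ) < i := by linarith
      obtain ⟨-, h6⟩ := yy_main hg hi36
      unfold fsq fone trc
      rw [if_pos hg, if_pos hg]
      set y := yy a b i
      set t : ℝ := ((i : ℝ) - pointCount a b i) / i with ht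
      have e : ((i : ℝ) - pointCount a b i) ^ 2 / (i : ℝ) ^ 2 = t ^ 2 := by rw [ht, div_pow]
      rw [e]
      have h7 : (y + t) ^ 2 ≤ (19 / i) ^ 2 := by
        rw [← sq_abs]
        exact pow_le_pow_left₀ (abs_nonneg _) h6 2
      have h8 : (19 / (i : ℝ)) ^ 2 ≤ 1 / 36 * (1 / i) := by
        rw [div_pow, div_le_iff₀ (by positivity)]
        have e2 : 1 / 36 * (1 / (i : ℝ)) * (i : ℝ) ^ 2 = i / 36 := by
          field_simp
        rw [e2]
        norm_num
        linarith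
      nlinarith [sq_nonneg (y + t), sq_nonneg (y - t), sq_nonneg (2 * y + t)]
    · have h6 : yy a b i = 0 := by unfold yy; rw [if_neg hg]
      unfold fsq fone
      rw [if_neg hg, if_neg hg, h6]
      norm_num
  rw [SW_add_fun, SW_const_mul, SW_const_mul] at h5
  rw [← e1] at h1
  linarith

end Pool.Agent.H564.SP
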